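import Mathlib

/-! A continuous flow on a compact space all of whose non-wandering behaviour is trivial with respect
to an invariant function `f` (flow boxes are parametrised by `f`). If the integrals of `h` over the
periodic orbits do not vanish, then the sets of points where the integral of `h` along the orbit
tends to `+∞`, resp. `-∞`, are open and cover the space. -/

open Set Filter MeasureTheory
open scoped Topology

noncomputable section

namespace Pool.Agent.J4.H62.We

variable {S : Type*} [TopologicalSpace S]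

/-- the standing assumptions on the flow `φ` and the invariant function `f` -/
structure Flw (φ : S → ℝ → S) (f : S → ℝ) : Prop where
  cont : Continuous fun p : S × ℝ => φ p.1 p.2
  zero : ∀ z, φ z 0 = z
  add : ∀ z s t, φ z (s + t) = φ (φ z s) t
  fcont : Continuous f
  finv : ∀ z t, f (φ z t) = f z
  box : ∀ q, (∃ t, φ q t ≠ q) → ∀ ε > 0, ∀ᶠ p : S × S in 𝓝 (q, q), f p.1 = f p.2 →
    ∃ s, |s| < ε ∧ p.2 = φ p.1 s
  short : ∀ q, (∃ t, φ q t ≠ q) → ∃ t₀ > 0, ∀ᶠ z in 𝓝 q, ∀ t, 0 < t → t ≤ t₀ → φ z t ≠ z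

/-- the integral of `h` along the orbit -/
def In (φ : S → ℝ → S) (h : S → ℝ) (z : S) (T : ℝ) : ℝ := ∫ t in (0:ℝ)..T, h (φ z t)

variable {φ : S → ℝ → S} {f h : S → ℝ}

lemma Flw.cont_left (H : Flw φ f) (z : S) : Continuous (φ z) :=
  H.cont.comp (Continuous.prodMk_right z)

lemma Flw.cont_right (H : Flw φ f) (t : ℝ) : Continuous fun z => φ z t :=
  H.cont.comp (Continuous.prodMk_left t)

lemma In_cont (H : Flw φ f) (hh : Continuous h) : Continuous fun p : S × ℝ => In φ h p.1 p.2 := by
  unfold In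
  have h1 : Continuous (Function.uncurry fun (p : S × ℝ) (t : ℝ) => h (φ p.1 t)) := by
    exact hh.comp (H.cont.comp (f := fun q : (S × ℝ) × ℝ => (q.1.1, q.2)) (by fun_prop))
  exact intervalIntegral.continuous_parametric_intervalIntegral_of_continuous h1 continuous_snd

/-- periodic orbits -/
lemma tendsto_of_periodic (H : Flw φ f) (hh : Continuous h) {z : S} {T : ℝ} (hT : 0 < T)
    (hz : φ z T = z) (hI : 0 < In φ h z T) : Tendsto (In φ h z) atTop atTop := by
  have hper : Function.Periodic (fun t => h (φ z t)) T := by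
    intro t
    show h (φ z (t + T)) = h (φ z t)
    rw [add_comm, H.add, hz]
  have hc : Continuous fun t => h (φ z t) := hh.comp (H.cont_left z)
  exact hper.tendsto_atTop_intervalIntegral_of_pos hI hT

/-- **A compact set without fixed points is visited for a bounded time per period.** -/
lemma bounded_time (H : Flw φ f) {Q : Set S} (hQ : IsCompact Q)
    (hfix : ∀ q ∈ Q, ∃ t, φ q t ≠ q) :
    ∃ B : ℝ, 0 ≤ B ∧ ∀ (z : S) (T : ℝ), 0 < T → (∀ t, 0 < t → t < T → φ z t ≠ z) →
      volume (Icc 0 T ∩ {t | φ z t ∈ Q}) ≤ ENNReal.ofReal B := by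
  have h1 : ∀ q ∈ Q, ∃ U ∈ 𝓝 q, ∀ z₁ ∈ U, ∀ z₂ ∈ U, f z₁ = f z₂ → ∃ s, |s| < 1 ∧ z₂ = φ z₁ s := by
    intro q hq
    have h2 := H.box q (hfix q hq) 1 one_pos
    rw [nhds_prod_eq, eventually_prod_iff] at h2
    obtain ⟨pa, ha, pb, hb, hab⟩ := h2
    exact ⟨_, inter_mem ha hb, fun z₁ hz₁ z₂ hz₂ hf => hab hz₁.1 hz₂.2 hf⟩
  choose! U hU hUb using h1
  obtain ⟨t, htQ, htc⟩ := hQ.elim_nhds_subcover U hU
  refine ⟨4 * t.card, by positivity, fun z T hT hz => ?_⟩
  have hone : ∀ q ∈ t, volume (Icc 0 T ∩ {t | φ z t ∈ U q}) ≤ ENNReal.ofReal 4 := by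
    intro q hq
    rcases (Icc 0 T ∩ {t | φ z t ∈ U q}).eq_empty_or_nonempty with he | ⟨t₁, ht₁⟩
    · rw [he]; simp
    have hsub : Icc 0 T ∩ {t | φ z t ∈ U q} ⊆ Ioo (t₁ - 1) (t₁ + 1) ∪ (Ioc (T - 1) T ∪ Ico 0 1) := by
      rintro t₂ ⟨ht₂, ht₂U⟩
      obtain ⟨s, hs, hs2⟩ := hUb q (htQ q hq) _ ht₁.2 _ ht₂U (by rw [H.finv, H.finv])
      rw [← H.add] at hs2
      rw [abs_lt] at hs
      have hT1 := ht₁.1
      set p := t₂ - t₁ - s with hp
      have hper : φ z p = z := by
        have h2 : φ (φ z t₂) (-(t₁ + s)) = φ (φ z (t₁ + s)) (-(t₁ + s)) := by rw [hs2]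
        rw [← H.add, ← H.add, add_neg_cancel, H.zero] at h2
        rw [← h2]
        congr 1
        rw [hp]; ring
      have hper' : φ z (-p) = z := by
        have h2 : φ (φ z p) (-p) = φ z (-p) := by rw [hper]
        rw [← H.add, add_neg_cancel, H.zero] at h2
        exact h2.symm
      rcases lt_trichotomy p 0 with h0 | h0 | h0
      · right; right
        have h3 : T ≤ -p := by
          by_contra hcon
          push Not at hcon
          exact hz (-p) (by linarith) hcon hper'
        exact ⟨ht₂.1, by linarith [hT1.2]⟩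
      · left
        exact ⟨by linarith, by linarith⟩
      · right; left
        have h3 : T ≤ p := by
          by_contra hcon
          push Not at hcon
          exact hz p h0 hcon hper
        exact ⟨by linarith [hT1.1], ht₂.2⟩
    refine (measure_mono hsub).trans ?_
    refine (measure_union_le _ _).trans ?_
    refine (add_le_add_right (measure_union_le _ _) _).trans ?_
    rw [Real.volume_Ioo, Real.volume_Ioc, Real.volume_Ico, ← ENNReal.ofReal_add (by linarith)
      (by norm_num), ← ENNReal.ofReal_add (by linarith) (by linarith)]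
    exact ENNReal.ofReal_le_ofReal (by linarith)
  have hsub : Icc 0 T ∩ {s | φ z s ∈ Q} ⊆ ⋃ q ∈ t, (Icc 0 T ∩ {s | φ z s ∈ U q}) := by
    rintro s ⟨hs, hsQ⟩
    obtain ⟨q, hq, hqU⟩ := mem_iUnion₂.1 (htc hsQ)
    exact mem_iUnion₂.2 ⟨q, hq, hs, hqU⟩
  refine (measure_mono hsub).trans ((measure_biUnion_finset_le _ _).trans ?_)
  refine (Finset.sum_le_card_nsmul _ _ _ hone).trans ?_
  rw [nsmul_eq_mul, mul_comm 4 (t.card : ℝ), ENNReal.ofReal_mul (by positivity),
    ENNReal.ofReal_natCast]

/-- lower bound of the integral when `h ≥ δ` outside a set visited for a bounded time -/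
lemma In_lower (H : Flw φ f) (hh : Continuous h) {Q : Set S} (hQ : IsClosed Q) {B δ M : ℝ}
    (hδ : 0 < δ) (hM : ∀ z, |h z| ≤ M) {z : S} {T : ℝ} (hT : 0 < T) (hB0 : 0 ≤ B)
    (hB : volume (Icc 0 T ∩ {t | φ z t ∈ Q}) ≤ ENNReal.ofReal B)
    (hV : ∀ t, φ z t ∉ Q → δ ≤ h (φ z t)) : δ * T - (δ + M) * B ≤ In φ h z T := by
  have hM0 : 0 ≤ M := (abs_nonneg _).trans (hM z)
  set A : Set ℝ := {t | φ z t ∈ Q} with hA
  have hAc : IsClosed A := hQ.preimage (H.cont_left z)
  have hAm : MeasurableSet A := hAc.measurableSet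
  have hc : Continuous fun t => h (φ z t) := hh.comp (H.cont_left z)
  have h1 : ∀ t, δ - (δ + M) * A.indicator (fun _ => (1:ℝ)) t ≤ h (φ z t) := by
    intro t
    by_cases ht : t ∈ A
    · rw [indicator_of_mem ht]
      have := (abs_le.1 (hM (φ z t))).1
      linarith
    · rw [indicator_of_notMem ht]
      have := hV t ht
      linarith
  have hint : IntervalIntegrable (A.indicator fun _ => (1:ℝ)) volume 0 T := by
    rw [intervalIntegrable_iff_integrableOn_Ioc_of_le hT.le]
    exact (integrableOn_const (by simp)).indicator hAm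
  have h2 : ∫ t in (0:ℝ)..T, (δ - (δ + M) * A.indicator (fun _ => (1:ℝ)) t) ≤ In φ h z T := by
    apply intervalIntegral.integral_mono_on hT.le
    · exact intervalIntegrable_const.sub (hint.const_mul _)
    · exact hc.intervalIntegrable _ _
    · intro t _
      exact h1 t
  refine le_trans ?_ h2
  rw [intervalIntegral.integral_sub intervalIntegrable_const (hint.const_mul _),
    intervalIntegral.integral_const, intervalIntegral.integral_const_mul, sub_zero, smul_eq_mul]
  have h3 : ∫ t in (0:ℝ)..T, A.indicator (fun _ => (1:ℝ)) t ≤ B := by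
    rw [intervalIntegral.integral_of_le hT.le, setIntegral_indicator hAm, setIntegral_const,
      smul_eq_mul, mul_one]
    refine ENNReal.toReal_le_of_le_ofReal hB0 (le_trans (measure_mono ?_) hB)
    exact fun t ht => ⟨Ioc_subset_Icc_self ht.1, ht.2⟩
  have h4 : 0 ≤ δ + M := by linarith
  nlinarith [mul_le_mul_of_nonneg_left h3 h4]

end Pool.Agent.J4.H62.We
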