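import Mathlib
import Pool.Agent.J4.H27.Wn.Ham

/-! The fibrewise Hamiltonian field of a compactly supported function on `ℝ × Y` and its flow. -/

open scoped Topology ContDiff Manifold
open Set Filter Pool.Agent.Helper186 Pool.Agent.J4.H27.Wn

noncomputable section

namespace Pool.Agent.J4.H62.We

set_option linter.unusedSectionVars false

universe u

variable {E' : Type u} [NormedAddCommGroup E'] [NormedSpace ℝ E'] [FiniteDimensional ℝ E']
  {K' : Type*} [TopologicalSpace K'] {J : ModelWithCorners ℝ E' K'} [J.Boundaryless]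
  {Y : Type*} [TopologicalSpace Y] [ChartedSpace K' Y] [IsManifold J ∞ Y]
  {w' : Y → E' →L[ℝ] E' →L[ℝ] ℝ}

/-- The two-form is smooth along smooth maps. -/
lemma smoothBilin_along {EP : Type*} [NormedAddCommGroup EP] [NormedSpace ℝ EP]
    {HP : Type*} [TopologicalSpace HP] {IP : ModelWithCorners ℝ EP HP}
    {Q : Type*} [TopologicalSpace Q] [ChartedSpace HP Q] {g : Q → Y} {p₀ : Q}
    (hg : ContMDiffAt IP J ∞ g p₀) (hw : SmoothTwo J w') :
    SmoothBilinAt (I := J) IP g (fun p => asB (I := J) w' (g p)) p₀ := by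
  intro u v hu hv
  set φ := extChartAt J (g p₀) with hφ
  have hu' := contMDiffAt_coord hu
  have hv' := contMDiffAt_coord hv
  let W : E' → (E' →L[ℝ] E' →L[ℝ] ℝ) := fun y =>
    (w' (φ.symm y)).bilinearComp (dSymm J (g p₀) y) (dSymm J (g p₀) y)
  have hW : ContDiffOn ℝ ∞ W φ.target := by
    rw [contDiffOn_clm_apply]
    intro a
    rw [contDiffOn_clm_apply]
    intro b
    exact hw (g p₀) a b
  have hWc : ContMDiffAt IP 𝓘(ℝ, E' →L[ℝ] E' →L[ℝ] ℝ) ∞ (fun p => W (φ (g p))) p₀ := by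
    have h1 : ContMDiffAt 𝓘(ℝ, E') 𝓘(ℝ, E' →L[ℝ] E' →L[ℝ] ℝ) ∞ W (φ (g p₀)) :=
      (hW.contDiffAt ((isOpen_extChartAt_target (g p₀)).mem_nhds
        (mem_extChartAt_target (g p₀)))).contMDiffAt
    have h2 : ContMDiffAt IP 𝓘(ℝ, E') ∞ (fun p => φ (g p)) p₀ :=
      ContMDiffAt.comp (g := φ) (f := g) p₀ contMDiffAt_extChartAt hg
    exact ContMDiffAt.comp (g := W) (f := fun p => φ (g p)) p₀ h1 h2
  have h1 := (hWc.clm_apply hu').clm_apply hv'
  refine h1.congr_of_eventuallyEq ?_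
  have hsrc : ∀ᶠ p in 𝓝 p₀, g p ∈ (extChartAt J (g p₀)).source :=
    hg.continuousAt.eventually ((isOpen_extChartAt_source (I := J) (g p₀)).mem_nhds
      (mem_extChartAt_source (g p₀)))
  filter_upwards [hsrc] with p hp
  have hp' : g p ∈ (trivializationAt E' (TangentSpace J) (g p₀)).baseSet := by
    rw [TangentBundle.trivializationAt_baseSet]
    rwa [extChartAt_source] at hp
  have key : ∀ u : TangentSpace J (g p), dSymm J (g p₀) (φ (g p))
      ((trivializationAt E' (TangentSpace J) (g p₀)) (⟨g p, u⟩ : TangentBundle J Y)).2 =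
        (u : E') := by
    intro u
    rw [hφ, dSymm_eq_symmL (g p₀) hp]
    have h2 := (trivializationAt E' (TangentSpace J) (g p₀)).symmL_continuousLinearMapAt
      (R := ℝ) hp' u
    rw [Bundle.Trivialization.continuousLinearMapAt_apply,
      Bundle.Trivialization.coe_linearMapAt_of_mem (R := ℝ) _ hp'] at h2
    exact h2
  show w' (g p) (u p) (v p) = w' (φ.symm (φ (g p))) (dSymm J (g p₀) (φ (g p)) _)
    (dSymm J (g p₀) (φ (g p)) _)
  rw [key, key, show φ.symm (φ (g p)) = g p from φ.left_inv hp]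

/-- the differential in the direction of `Y` -/
def dY (J : ModelWithCorners ℝ E' K') (Ψ : ℝ × Y → ℝ) (p : ℝ × Y) : E' →L[ℝ] ℝ :=
  dif J (fun y => Ψ (p.1, y)) p.2

/-- the derivative in the direction of `ℝ` -/
def dR (Ψ : ℝ × Y → ℝ) (p : ℝ × Y) : ℝ := deriv (fun s => Ψ (s, p.2)) p.1

theorem exists_fibre_flow [T2Space Y] (hw : SmoothTwo J w') (halt : ∀ x v, w' x v v = 0)
    (hnd : ∀ x v, (∀ u, w' x v u = 0) → v = 0)
    {Ψ : ℝ × Y → ℝ} (hΨ : Sm (𝓘(ℝ, ℝ).prod J) Ψ) {C : Set (ℝ × Y)} (hC : IsCompact C)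
    (hΨC : ∀ p ∉ C, Ψ p = 0) :
    ∃ (X : ℝ × Y → E') (Fl : ℝ × Y → ℝ → ℝ × Y),
      (∀ p v, w' p.2 (X p) v = - dY J Ψ p v) ∧
      ContMDiff (𝓘(ℝ, ℝ).prod J) J.tangent ∞
        (fun p : ℝ × Y => (⟨p.2, X p⟩ : TangentBundle J Y)) ∧
      ContMDiff ((𝓘(ℝ, ℝ).prod J).prod 𝓘(ℝ, ℝ)) (𝓘(ℝ, ℝ).prod J) ∞
        (fun q : (ℝ × Y) × ℝ => Fl q.1 q.2) ∧
      (∀ p, Fl p 0 = p) ∧ (∀ p s t, Fl p (s + t) = Fl (Fl p s) t) ∧
      (∀ p t, (Fl p t).1 = p.1) ∧ (∀ p t, Ψ (Fl p t) = Ψ p) ∧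
      (∀ p t, HasMFDerivAt 𝓘(ℝ, ℝ) J (fun t => (Fl p t).2) t
        ((1 : ℝ →L[ℝ] ℝ).smulRight (X (Fl p t)))) ∧
      (∀ p, X p = 0 → ∀ t, Fl p t = p) := by
  have : IsManifold J 1 Y := IsManifold.of_le (n := ∞) (by simp)
  have : IsManifold (𝓘(ℝ, ℝ).prod J) 1 (ℝ × Y) := IsManifold.of_le (n := ∞) (by simp)
  choose X hX using fun p : ℝ × Y => exists_sharp (asB (I := J) w' p.2) (hnd p.2)
    (-(show TangentSpace J p.2 →L[ℝ] ℝ from mfderiv J 𝓘(ℝ, ℝ) (fun y => Ψ (p.1, y)) p.2))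
  have hXs : ContMDiff (𝓘(ℝ, ℝ).prod J) J.tangent ∞
      (fun p : ℝ × Y => (⟨p.2, X p⟩ : TangentBundle J Y)) := by
    intro p₀
    refine contMDiffAt_of_pairing (f := fun p : ℝ × Y => p.2) contMDiffAt_snd
      (smoothBilin_along contMDiffAt_snd hw) (hnd p₀.2) ?_
    intro v hv
    have h1 := (contMDiffAt_spaceDeriv hΨ hv).neg
    refine h1.congr_of_eventuallyEq (Filter.Eventually.of_forall fun p => ?_)
    exact hX p (v p)
  have hXC : ∀ p ∉ C, X p = 0 := by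
    intro p hp
    apply hnd p.2
    intro v
    have h1 : (fun y => Ψ (p.1, y)) =ᶠ[𝓝 p.2] fun _ => 0 := by
      have h2 : ContinuousAt (fun y : Y => (p.1, y)) p.2 := by fun_prop
      have h3 : ∀ᶠ y in 𝓝 p.2, (p.1, y) ∈ Cᶜ :=
        h2.preimage_mem_nhds (hC.isClosed.isOpen_compl.mem_nhds hp)
      filter_upwards [h3] with y hy
      exact hΨC _ hy
    have h4 : dY J Ψ p = 0 := by
      have h6 : mfderiv J 𝓘(ℝ, ℝ) (fun y => Ψ (p.1, y)) p.2 = 0 := by
        rw [h1.mfderiv_eq]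
        exact mfderiv_const
      exact h6
    have h5 : w' p.2 (X p) v = - dY J Ψ p v := hX p v
    rw [h4] at h5
    refine h5.trans ?_
    simp
  -- the vector field on the product
  let V : (p : ℝ × Y) → TangentSpace (𝓘(ℝ, ℝ).prod J) p := fun p => ((0:ℝ), (X p : E'))
  have hVs : ContMDiff (𝓘(ℝ, ℝ).prod J) (𝓘(ℝ, ℝ).prod J).tangent ∞
      (fun p : ℝ × Y => (⟨p, V p⟩ : TangentBundle (𝓘(ℝ, ℝ).prod J) (ℝ × Y))) := fun p =>
    contMDiffAt_vertical (hXs p)
  have hVC : ∀ p ∉ C, V p = 0 := by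
    intro p hp
    show ((0:ℝ), (X p : E')) = 0
    rw [hXC p hp]; rfl
  choose Fl h0 hFl using complete_of_compact hVs hC hVC
  have hsm := contMDiff_flow hVs h0 hFl
  have hadd := flow_add hVs h0 hFl
  have hfst : ∀ (p : ℝ × Y) (t : ℝ), (Fl p t).1 = p.1 := by
    intro p t
    have hd : ∀ t, HasDerivAt (fun t => (Fl p t).1) 0 t := by
      intro t
      have h1 : HasMFDerivAt 𝓘(ℝ, ℝ) 𝓘(ℝ, ℝ) (fun t => (Fl p t).1) t (0 : ℝ →L[ℝ] ℝ) := by
        refine ((hasMFDerivAt_fst (I := 𝓘(ℝ, ℝ)) (I' := J) (Fl p t)).comp t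
          (hFl p t)).congr_mfderiv ?_
        refine ContinuousLinearMap.ext fun (r : ℝ) => ?_
        exact mul_zero r
      have h2 : HasFDerivAt (fun t => (Fl p t).1) (0 : ℝ →L[ℝ] ℝ) t :=
        hasMFDerivAt_iff_hasFDerivAt.1 h1
      simpa using h2.hasDerivAt
    have := is_const_of_deriv_eq_zero (fun t => (hd t).differentiableAt)
      (fun t => (hd t).deriv) t 0
    simpa [h0] using this
  have hsnd : ∀ (p : ℝ × Y) (t : ℝ), HasMFDerivAt 𝓘(ℝ, ℝ) J (fun t => (Fl p t).2) t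
      ((1 : ℝ →L[ℝ] ℝ).smulRight (X (Fl p t) : E')) := by
    intro p t
    refine ((hasMFDerivAt_snd (I := 𝓘(ℝ, ℝ)) (I' := J) (Fl p t)).comp t
      (hFl p t)).congr_mfderiv ?_
    refine ContinuousLinearMap.ext fun (r : ℝ) => ?_
    rfl
  refine ⟨fun p => X p, Fl, fun p v => hX p v, hXs, hsm, h0, hadd, hfst, ?_, hsnd, ?_⟩
  · intro p t
    have hd : ∀ t, HasDerivAt (fun t => Ψ (Fl p t)) 0 t := by
      intro t
      have h1 := hasDerivAt_along (hsnd p t) (sm_right hΨ p.1)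
      have h2 : (fun s => Ψ (p.1, (Fl p s).2)) = fun s => Ψ (Fl p s) := by
        funext s
        congr 1
        exact Prod.ext (hfst p s).symm rfl
      rw [h2] at h1
      have h3 := hX (Fl p t) (X (Fl p t))
      have h4 : asB (I := J) w' (Fl p t).2 (X (Fl p t)) (X (Fl p t)) = 0 :=
        halt (Fl p t).2 (X (Fl p t))
      rw [h4, neg_apply] at h3
      have h5 : dif J (fun y => Ψ (p.1, y)) (Fl p t).2 (X (Fl p t)) = 0 := by
        have h6 : dif J (fun y => Ψ ((Fl p t).1, y)) (Fl p t).2 (X (Fl p t)) = 0 :=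
          neg_eq_zero.1 h3.symm
        rwa [hfst] at h6
      rwa [h5] at h1
    have := is_const_of_deriv_eq_zero (fun t => (hd t).differentiableAt)
      (fun t => (hd t).deriv) t 0
    simpa [h0] using this
  · intro p hp t
    have hc : IsMIntegralCurve (fun _ : ℝ => p) V := by
      intro t
      have h1 : HasMFDerivAt 𝓘(ℝ, ℝ) (𝓘(ℝ, ℝ).prod J) (fun _ : ℝ => p) t
        (0 : ℝ →L[ℝ] ℝ × E') := hasMFDerivAt_const p t
      refine h1.congr_mfderiv ?_
      refine ContinuousLinearMap.ext fun (r : ℝ) => ?_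
      have hp' : (X p : E') = 0 := hp
      exact Prod.ext (mul_zero r).symm (smul_eq_zero_of_right r hp').symm
    have h2 := isMIntegralCurve_eq_of_contMDiff (t₀ := (0:ℝ)) (fun t => BoundarylessManifold.isInteriorPoint)
      (hVs.of_le (by simp)) hc (hFl p) (by rw [h0])
    exact (congrFun h2 t).symm

end Pool.Agent.J4.H62.We
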