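import Mathlib
import Pool.Agent.J4.H62.We.Field
import Pool.Agent.J4.H62.We.Core

/-! Flow boxes of the fibrewise Hamiltonian flow on a compact piece of a level set. -/

open scoped Topology ContDiff Manifold
open Set Filter Pool.Agent.Helper186 Pool.Agent.J4.H27.Wn

noncomputable section

namespace Pool.Agent.J4.H62.We

set_option linter.unusedSectionVars false

universe u

/-- A map with injective strict derivative is locally injective. -/
lemma locally_injective {E F : Type*} [NormedAddCommGroup E] [NormedSpace ℝ E]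
    [FiniteDimensional ℝ E] [NormedAddCommGroup F] [NormedSpace ℝ F] {G : E → F} {D : E →L[ℝ] F}
    {x₀ : E} (hG : HasStrictFDerivAt G D x₀) (hD : Function.Injective D) :
    ∀ᶠ p : E × E in 𝓝 (x₀, x₀), G p.1 = G p.2 → p.1 = p.2 := by
  obtain ⟨K, hK, hKb⟩ := (D : E →ₗ[ℝ] F).exists_antilipschitzWith (LinearMap.ker_eq_bot.2 hD)
  have hKpos : (0:ℝ) < K := by exact_mod_cast hK
  have hlow : ∀ u, ‖u‖ ≤ K * ‖D u‖ := by
    intro u
    have h1 := hKb.le_mul_dist u 0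
    rw [dist_zero_right] at h1
    have h2 : dist ((D : E →ₗ[ℝ] F) u) ((D : E →ₗ[ℝ] F) 0) = ‖D u‖ := by
      rw [map_zero, dist_zero_right]; rfl
    rwa [h2] at h1
  have h1 := hG.isLittleO.def (c := 1 / (2 * K)) (by positivity)
  filter_upwards [h1] with p hp hGp
  rw [hGp, sub_self, zero_sub, norm_neg] at hp
  have h2 := hlow (p.1 - p.2)
  have h3 : K * ‖D (p.1 - p.2)‖ ≤ K * (1 / (2 * K) * ‖p.1 - p.2‖) :=
    mul_le_mul_of_nonneg_left hp hKpos.le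
  have h4 : (K:ℝ) * (1 / (2 * K) * ‖p.1 - p.2‖) = ‖p.1 - p.2‖ / 2 := by field_simp
  have h5 : ‖p.1 - p.2‖ ≤ 0 := by linarith
  exact sub_eq_zero.1 (norm_le_zero_iff.1 h5)

variable {E' : Type u} [NormedAddCommGroup E'] [NormedSpace ℝ E'] [FiniteDimensional ℝ E']
  {K' : Type*} [TopologicalSpace K'] {J : ModelWithCorners ℝ E' K'} [J.Boundaryless]
  {Y : Type*} [TopologicalSpace Y] [ChartedSpace K' Y] [IsManifold J ∞ Y]
  {w' : Y → E' →L[ℝ] E' →L[ℝ] ℝ}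

/-- Points near `q` with the same values of the height, of `Φ` and of a third function coincide. -/
lemma local_coordinates (hdim : Module.finrank ℝ E' = 2) {Φ : ℝ × Y → ℝ}
    (hΦ : Sm (𝓘(ℝ, ℝ).prod J) Φ) {q : ℝ × Y} {v : E'} (hL : dY J Φ q ≠ 0)
    (hLv : dY J Φ q v = 0) {ρ₀ : E' →L[ℝ] ℝ} (hρ : ρ₀ v = 1) :
    ∀ᶠ p : (ℝ × Y) × (ℝ × Y) in 𝓝 (q, q), p.1.1 = p.2.1 → Φ p.1 = Φ p.2 →
      ρ₀ (extChartAt J q.2 p.1.2) = ρ₀ (extChartAt J q.2 p.2.2) → p.1 = p.2 := by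
  set φ := extChartAt J q.2 with hφ
  set L : E' →L[ℝ] ℝ := dY J Φ q with hLdef
  -- `Φ` in coordinates
  let Φc : ℝ × E' → ℝ := fun z => Φ (z.1, φ.symm z.2)
  have hsrc : q.2 ∈ φ.source := mem_extChartAt_source q.2
  have htgt : φ q.2 ∈ φ.target := mem_extChartAt_target q.2
  have hΦc : ContDiffAt ℝ ∞ Φc (q.1, φ q.2) := by
    rw [← contMDiffAt_iff_contDiffAt]
    have h1 : ContMDiffAt 𝓘(ℝ, ℝ × E') (𝓘(ℝ, ℝ).prod J) ∞
        (fun z : ℝ × E' => (z.1, φ.symm z.2)) (q.1, φ q.2) := by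
      refine ContMDiffAt.prodMk contDiff_fst.contMDiff.contMDiffAt ?_
      have h2 : ContMDiffAt 𝓘(ℝ, E') J ∞ φ.symm (φ q.2) :=
        (contMDiffOn_extChartAt_symm q.2).contMDiffAt
          ((isOpen_extChartAt_target q.2).mem_nhds htgt)
      exact ContMDiffAt.comp (g := φ.symm) (f := fun z : ℝ × E' => z.2) (q.1, φ q.2) h2
        contDiff_snd.contMDiff.contMDiffAt
    exact ContMDiffAt.comp (g := Φ) (f := fun z : ℝ × E' => (z.1, φ.symm z.2)) (q.1, φ q.2)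
      (hΦ _) h1
  have hs := hΦc.hasStrictFDerivAt (by simp)
  set DΦ := fderiv ℝ Φc (q.1, φ q.2) with hDΦ
  have hDL : ∀ u : E', DΦ (0, u) = L u := by
    intro u
    have h1 : HasFDerivAt (fun z : E' => Φc (q.1, z)) (DΦ.comp (ContinuousLinearMap.inr ℝ ℝ E'))
        (φ q.2) := hs.hasFDerivAt.comp (φ q.2) (hasFDerivAt_prodMk_right q.1 (φ q.2))
    have h2 : (fun z : E' => Φc (q.1, z)) = fun z => (fun y => Φ (q.1, y)) (φ.symm z) := rfl
    have h3 := dif_self (sm_right hΦ q.1) q.2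
    rw [hLdef]
    unfold dY
    rw [h3, ← hφ, ← h2, h1.fderiv]
    rfl
  let G : ℝ × E' → ℝ × (ℝ × ℝ) := fun z => (z.1, (Φc z, ρ₀ z.2))
  let D : ℝ × E' →L[ℝ] ℝ × (ℝ × ℝ) := (ContinuousLinearMap.fst ℝ ℝ E').prod
    (DΦ.prod (ρ₀.comp (ContinuousLinearMap.snd ℝ ℝ E')))
  have hG : HasStrictFDerivAt G D (q.1, φ q.2) :=
    hasStrictFDerivAt_fst.prodMk (hs.prodMk (ρ₀.hasStrictFDerivAt.comp _ hasStrictFDerivAt_snd))
  have hA : Function.Injective (L.prod ρ₀ : E' →L[ℝ] ℝ × ℝ) := by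
    have h1 : Module.finrank ℝ E' = Module.finrank ℝ (ℝ × ℝ) := by
      rw [hdim, Module.finrank_prod]; simp
    have h2 := LinearMap.injective_iff_surjective_of_finrank_eq_finrank h1
      (f := ((L.prod ρ₀ : E' →L[ℝ] ℝ × ℝ) : E' →ₗ[ℝ] ℝ × ℝ))
    refine h2.2 ?_
    obtain ⟨e, he⟩ : ∃ e, L e = 1 := by
      obtain ⟨u, hu⟩ : ∃ u, L u ≠ 0 := by
        by_contra hcon
        push Not at hcon
        exact hL (ContinuousLinearMap.ext hcon)
      exact ⟨(L u)⁻¹ • u, by rw [map_smul, smul_eq_mul, inv_mul_cancel₀ hu]⟩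
    rintro ⟨a, b⟩
    refine ⟨a • e + (b - a * ρ₀ e) • v, ?_⟩
    show (L (a • e + (b - a * ρ₀ e) • v), ρ₀ (a • e + (b - a * ρ₀ e) • v)) = (a, b)
    refine Prod.ext ?_ ?_
    · simp only [map_add, map_smul, he, hLv, smul_eq_mul]; ring
    · simp only [map_add, map_smul, hρ, smul_eq_mul]; ring
  have hDinj : Function.Injective D := by
    rw [injective_iff_map_eq_zero]
    rintro ⟨a, u⟩ h1
    have h2 : a = 0 := congrArg Prod.fst h1
    subst h2
    have h3 : DΦ (0, u) = 0 := congrArg (fun z => z.2.1) h1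
    have h4 : ρ₀ u = 0 := congrArg (fun z => z.2.2) h1
    rw [hDL] at h3
    have h5 : u = 0 := by
      apply hA
      rw [map_zero]
      exact Prod.ext h3 h4
    rw [h5]; rfl
  have hinj := locally_injective hG hDinj
  have hcont : ContinuousAt (fun p : (ℝ × Y) × (ℝ × Y) => (((p.1.1, φ p.1.2) : ℝ × E'),
      ((p.2.1, φ p.2.2) : ℝ × E'))) (q, q) := by
    have h1 : ContinuousAt φ q.2 := continuousAt_extChartAt q.2
    have h2 : ContinuousAt (fun p : (ℝ × Y) × (ℝ × Y) => φ p.1.2) (q, q) :=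
      ContinuousAt.comp (g := φ) (f := fun p : (ℝ × Y) × (ℝ × Y) => p.1.2) h1 (by fun_prop)
    have h3 : ContinuousAt (fun p : (ℝ × Y) × (ℝ × Y) => φ p.2.2) (q, q) :=
      ContinuousAt.comp (g := φ) (f := fun p : (ℝ × Y) × (ℝ × Y) => p.2.2) h1 (by fun_prop)
    exact ((by fun_prop : ContinuousAt (fun p : (ℝ × Y) × (ℝ × Y) => p.1.1) (q, q)).prodMk
      h2).prodMk ((by fun_prop : ContinuousAt (fun p : (ℝ × Y) × (ℝ × Y) => p.2.1) (q, q)).prodMk h3)
  have hs1 : ∀ᶠ p : (ℝ × Y) × (ℝ × Y) in 𝓝 (q, q), p.1.2 ∈ φ.source ∧ p.2.2 ∈ φ.source := by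
    have ho : IsOpen φ.source := isOpen_extChartAt_source q.2
    have h1 : IsOpen {p : (ℝ × Y) × (ℝ × Y) | p.1.2 ∈ φ.source ∧ p.2.2 ∈ φ.source} :=
      (ho.preimage (by fun_prop : Continuous fun p : (ℝ × Y) × (ℝ × Y) => p.1.2)).inter
        (ho.preimage (by fun_prop : Continuous fun p : (ℝ × Y) × (ℝ × Y) => p.2.2))
    exact h1.mem_nhds ⟨hsrc, hsrc⟩
  filter_upwards [hcont.eventually hinj, hs1] with p hp hsp h1 h2 h3
  have h4 : ((p.1.1, φ p.1.2) : ℝ × E') = (p.2.1, φ p.2.2) := by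
    apply hp
    refine Prod.ext h1 (Prod.ext ?_ h3)
    show Φ (p.1.1, φ.symm (φ p.1.2)) = Φ (p.2.1, φ.symm (φ p.2.2))
    rw [φ.left_inv hsp.1, φ.left_inv hsp.2]
    exact h2
  exact Prod.ext h1 (φ.injOn hsp.1 hsp.2 (congrArg Prod.snd h4))

end Pool.Agent.J4.H62.We
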