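import Mathlib
import Pool.Agent.J4.H62.We.Box

/-! The fibrewise Hamiltonian flow on a compact piece of a level set in `ℝ × Y`. -/

open scoped Topology ContDiff Manifold
open Set Filter Pool.Agent.Helper186 Pool.Agent.J4.H27.Wn

noncomputable section

namespace Pool.Agent.J4.H62.We

set_option linter.unusedSectionVars false

universe u

variable {E' : Type u} [NormedAddCommGroup E'] [NormedSpace ℝ E'] [FiniteDimensional ℝ E']
  {K' : Type*} [TopologicalSpace K'] {J : ModelWithCorners ℝ E' K'} [J.Boundaryless]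
  {Y : Type*} [TopologicalSpace Y] [ChartedSpace K' Y] [IsManifold J ∞ Y]
  {w' : Y → E' →L[ℝ] E' →L[ℝ] ℝ}

variable (J) in
/-- the data of the fibrewise flow on a piece `P` -/
structure PFlow (w' : Y → E' →L[ℝ] E' →L[ℝ] ℝ) (Φ : ℝ × Y → ℝ)
    (P : Set (ℝ × Y)) (X : ℝ × Y → E') (Fl : ℝ × Y → ℝ → ℝ × Y) : Prop where
  ham : ∀ p ∈ P, ∀ v, w' p.2 (X p) v = - dY J Φ p v
  Xs : ContMDiff (𝓘(ℝ, ℝ).prod J) J.tangent ∞ (fun p : ℝ × Y => (⟨p.2, X p⟩ : TangentBundle J Y))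
  smooth : ContMDiff ((𝓘(ℝ, ℝ).prod J).prod 𝓘(ℝ, ℝ)) (𝓘(ℝ, ℝ).prod J) ∞
    (fun q : (ℝ × Y) × ℝ => Fl q.1 q.2)
  zero : ∀ p, Fl p 0 = p
  add : ∀ p s t, Fl p (s + t) = Fl (Fl p s) t
  fst : ∀ p t, (Fl p t).1 = p.1
  der : ∀ p t, HasMFDerivAt 𝓘(ℝ, ℝ) J (fun t => (Fl p t).2) t
    ((1 : ℝ →L[ℝ] ℝ).smulRight (X (Fl p t)))
  mem : ∀ p ∈ P, ∀ t, Fl p t ∈ P
  fixed : ∀ p, X p = 0 → ∀ t, Fl p t = p
  box : ∀ q ∈ P, X q ≠ 0 → ∀ ε > 0, ∀ᶠ p : (ℝ × Y) × (ℝ × Y) in 𝓝 (q, q), p.1 ∈ P → p.2 ∈ P →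
    p.1.1 = p.2.1 → ∃ s, |s| < ε ∧ p.2 = Fl p.1 s
  short : ∀ q ∈ P, X q ≠ 0 → ∃ t₀ > 0, ∀ᶠ z in 𝓝 q, ∀ t, 0 < t → t ≤ t₀ → Fl z t ≠ z

theorem exists_piece_flow [T2Space Y] [SigmaCompactSpace Y]
    (hdim : Module.finrank ℝ E' = 2) (hw : SmoothTwo J w') (halt : ∀ x v, w' x v v = 0)
    (hnd : ∀ x v, (∀ u, w' x v u = 0) → v = 0) {Φ : ℝ × Y → ℝ} (hΦ : Sm (𝓘(ℝ, ℝ).prod J) Φ)
    {c : ℝ} {P O : Set (ℝ × Y)} (hP : IsCompact P) (hO : IsOpen O)
    (hPO : ∀ p, p ∈ P ↔ p ∈ O ∧ Φ p = c) : ∃ X Fl, PFlow J w' Φ P X Fl := by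
  have : IsManifold J 1 Y := IsManifold.of_le (n := ∞) (by simp)
  have hPsub : P ⊆ O := fun p hp => ((hPO p).1 hp).1
  obtain ⟨χ, C, hχ, hC, -, hχ1, hχ0⟩ := exists_cutoff (𝓘(ℝ, ℝ).prod J) hP hO hPsub
  set Ψ : ℝ × Y → ℝ := fun p => χ p * (Φ p - c) with hΨdef
  have hΨ : Sm (𝓘(ℝ, ℝ).prod J) Ψ := hχ.mul (hΦ.sub contMDiff_const)
  have hΨC : ∀ p ∉ C, Ψ p = 0 := by
    intro p hp
    simp only [hΨdef, hχ0 p hp, zero_mul]
  obtain ⟨X, Fl, hX, hXs, hsm, h0, hadd, hfst, hcons, hder, hfix⟩ :=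
    exists_fibre_flow hw halt hnd hΨ hC hΨC
  have hnear : ∀ p ∈ P, ∀ᶠ q in 𝓝 p, Ψ q = Φ q - c := by
    intro p hp
    filter_upwards [hχ1.filter_mono (nhds_le_nhdsSet hp)] with q hq
    simp [hΨdef, hq]
  have hdY : ∀ p ∈ P, dY J Ψ p = dY J Φ p := by
    intro p hp
    have h1 : (fun y => Ψ (p.1, y)) =ᶠ[𝓝 p.2] fun y => Φ (p.1, y) - c := by
      have h2 : ContinuousAt (fun y : Y => (p.1, y)) p.2 := by fun_prop
      exact h2.eventually (hnear p hp)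
    have h2 : HasMFDerivAt J 𝓘(ℝ, ℝ) (fun y => Φ (p.1, y)) p.2
        (mfderiv J 𝓘(ℝ, ℝ) (fun y => Φ (p.1, y)) p.2) :=
      ((sm_right hΦ p.1).mdifferentiableAt (by simp)).hasMFDerivAt
    have h3 := h2.sub (hasMFDerivAt_const (I := J) (I' := 𝓘(ℝ, ℝ)) c p.2)
    unfold dY dif
    rw [h1.mfderiv_eq]
    refine Eq.trans h3.mfderiv ?_
    exact sub_zero _
  have hΨ0 : ∀ p ∈ P, Ψ p = 0 := by
    intro p hp
    rw [(hnear p hp).self_of_nhds, ((hPO p).1 hp).2, sub_self]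
  have hFc : ∀ p, Continuous (Fl p) := fun p =>
    hsm.continuous.comp (Continuous.prodMk_right p)
  have hinv : ∀ p ∈ P, ∀ t, Fl p t ∈ P := by
    intro p hp
    have hcl : IsClopen {t | Fl p t ∈ P} := by
      constructor
      · exact hP.isClosed.preimage (hFc p)
      · rw [isOpen_iff_mem_nhds]
        intro t ht
        filter_upwards [(hFc p).continuousAt.eventually (hnear _ ht),
          (hFc p).continuousAt.eventually (hO.mem_nhds (hPsub ht))] with s hs1 hs2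
        show Fl p s ∈ P
        rw [hPO]
        refine ⟨hs2, ?_⟩
        rw [hcons, hΨ0 p hp] at hs1
        linarith
    have huniv : {t | Fl p t ∈ P} = univ := hcl.eq_univ ⟨0, by
      show Fl p 0 ∈ P
      rw [h0]; exact hp⟩
    intro t
    have : t ∈ {t | Fl p t ∈ P} := by rw [huniv]; trivial
    exact this
  -- local time functions
  have hloc : ∀ q ∈ P, X q ≠ 0 → ∃ (ρ : Y → ℝ) (t₀ : ℝ) (U : Set (ℝ × Y)), 0 < t₀ ∧ U ∈ 𝓝 q ∧
      Continuous ρ ∧ (∀ z ∈ U, ∀ t, |t| ≤ t₀ → ∃ d, 1 / 2 < d ∧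
        HasDerivAt (fun t => ρ (Fl z t).2) d t) ∧
      (∀ᶠ p : (ℝ × Y) × (ℝ × Y) in 𝓝 (q, q), p.1.1 = p.2.1 → Φ p.1 = Φ p.2 →
        ρ p.1.2 = ρ p.2.2 → p.1 = p.2) := by
    intro q hq hXq
    obtain ⟨ρ₀, hρ₀⟩ : ∃ ρ₀ : E' →L[ℝ] ℝ, ρ₀ (X q) = 1 := by
      obtain ⟨g, hg⟩ := SeparatingDual.exists_eq_one (R := ℝ) hXq
      exact ⟨g, hg⟩
    set φ := extChartAt J q.2 with hφ
    have hsrc : q.2 ∈ φ.source := mem_extChartAt_source q.2
    have hφs : ContMDiffOn J 𝓘(ℝ, ℝ) ∞ (fun y => ρ₀ (φ y)) φ.source := by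
      have h1 : ContMDiffOn J 𝓘(ℝ, E') ∞ φ φ.source := by
        rw [hφ, extChartAt_source]
        exact contMDiffOn_extChartAt
      exact ρ₀.contDiff.contMDiff.comp_contMDiffOn h1
    obtain ⟨ρ, C', hρs, hC', -, hρ1, -⟩ := exists_extension (I := J) (K := {q.2})
      isCompact_singleton (isOpen_extChartAt_source (I := J) q.2) (by simp) hφs
    have hρ1' : ∀ᶠ y in 𝓝 q.2, ρ y = ρ₀ (φ y) := hρ1.filter_mono (nhds_le_nhdsSet (mem_singleton _))
    -- derivative of `ρ` along the field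
    have hr : ContMDiff (𝓘(ℝ, ℝ).prod J) 𝓘(ℝ, ℝ) ∞ (fun p : ℝ × Y => dif J ρ p.2 (X p)) := by
      intro p
      exact contMDiffAt_spaceDeriv (I := J) (Hh := fun p => ρ p.2) (hρs.comp contMDiff_snd)
        (hXs p)
    have hrq : dif J ρ q.2 (X q) = 1 := by
      have h1 : dif J ρ q.2 = ρ₀ := by
        have h2 : HasMFDerivAt J 𝓘(ℝ, E') φ q.2 (ContinuousLinearMap.id ℝ E') := by
          have h2 : MDifferentiableAt J 𝓘(ℝ, E') φ q.2 :=
            mdifferentiableAt_extChartAt (mem_chart_source K' q.2)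
          have h3 := h2.hasMFDerivAt
          have h4 : mfderiv J 𝓘(ℝ, E') φ q.2 = ContinuousLinearMap.id ℝ _ :=
            mfderiv_extChartAt_self
          rw [h4] at h3
          exact h3
        have h3 : HasMFDerivAt 𝓘(ℝ, E') 𝓘(ℝ, ℝ) ρ₀ (φ q.2) ρ₀ :=
          ρ₀.hasFDerivAt.hasMFDerivAt
        have h4 := HasMFDerivAt.comp q.2 h3 h2
        have h5 : (ρ₀ ∘ φ) =ᶠ[𝓝 q.2] ρ := by
          filter_upwards [hρ1'] with y hy using hy.symm
        unfold dif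
        rw [← h5.mfderiv_eq, h4.mfderiv]
        rfl
      rw [h1, hρ₀]
    have hcont : Continuous fun z : (ℝ × Y) × ℝ => dif J ρ (Fl z.1 z.2).2 (X (Fl z.1 z.2)) :=
      hr.continuous.comp hsm.continuous
    have hev : ∀ᶠ z : (ℝ × Y) × ℝ in 𝓝 (q, 0), 1 / 2 < dif J ρ (Fl z.1 z.2).2 (X (Fl z.1 z.2)) := by
      have h1 : dif J ρ (Fl q 0).2 (X (Fl q 0)) = 1 := by rw [h0]; exact hrq
      have h2 : IsOpen {z : (ℝ × Y) × ℝ | 1 / 2 < dif J ρ (Fl z.1 z.2).2 (X (Fl z.1 z.2))} :=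
        isOpen_lt continuous_const hcont
      refine h2.mem_nhds ?_
      show 1 / 2 < dif J ρ (Fl q 0).2 (X (Fl q 0))
      rw [h1]; norm_num
    rw [nhds_prod_eq, eventually_prod_iff] at hev
    obtain ⟨pa, ha, pb, hb, hab⟩ := hev
    obtain ⟨δ, hδ, hδb⟩ := Metric.eventually_nhds_iff.1 hb
    have hL : dY J Φ q ≠ 0 := by
      intro h1
      apply hXq
      apply hnd q.2
      intro u
      rw [hX, hdY q hq, h1]; simp
    have hLv : dY J Φ q (X q) = 0 := by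
      have h1 := hX q (X q)
      rw [halt, hdY q hq] at h1
      linarith
    have hcoord := local_coordinates hdim hΦ hL hLv hρ₀
    refine ⟨ρ, δ / 2, {z | pa z}, half_pos hδ, ha, hρs.continuous, ?_, ?_⟩
    · intro z hz t ht
      refine ⟨_, hab hz (hδb (y := t) ?_), hasDerivAt_along (hder z t) hρs⟩
      rw [Real.dist_eq, sub_zero]
      linarith
    · have e1 : ∀ᶠ p : (ℝ × Y) × (ℝ × Y) in 𝓝 (q, q), ρ p.1.2 = ρ₀ (φ p.1.2) :=
        ((by fun_prop : Continuous fun p : (ℝ × Y) × (ℝ × Y) => p.1.2).tendsto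
          (q, q)).eventually hρ1'
      have e2 : ∀ᶠ p : (ℝ × Y) × (ℝ × Y) in 𝓝 (q, q), ρ p.2.2 = ρ₀ (φ p.2.2) :=
        ((by fun_prop : Continuous fun p : (ℝ × Y) × (ℝ × Y) => p.2.2).tendsto
          (q, q)).eventually hρ1'
      filter_upwards [hcoord, e1, e2] with p hp he1 he2 h1 h2 h3
      exact hp h1 h2 (by rw [← he1, ← he2]; exact h3)
  -- monotonicity
  have hmono : ∀ {ρ : Y → ℝ} {t₀ : ℝ} {z : ℝ × Y}, (∀ t, |t| ≤ t₀ → ∃ d, 1 / 2 < d ∧
        HasDerivAt (fun t => ρ (Fl z t).2) d t) → ∀ s t, |s| ≤ t₀ → |t| ≤ t₀ → s ≤ t →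
        (t - s) / 2 ≤ ρ (Fl z t).2 - ρ (Fl z s).2 := by
    intro ρ t₀ z hz s t hs ht hst
    have hconv : ∀ x ∈ Icc s t, |x| ≤ t₀ := by
      intro x hx
      rw [abs_le] at hs ht ⊢
      exact ⟨by linarith [hx.1], by linarith [hx.2]⟩
    have h1 := (convex_Icc s t).mul_sub_le_image_sub_of_le_deriv
      (f := fun t => ρ (Fl z t).2) (C := 1 / 2)
      (fun x hx => by
        obtain ⟨d, -, hd⟩ := hz x (hconv x hx)
        exact hd.continuousAt.continuousWithinAt)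
      (fun x hx => by
        obtain ⟨d, -, hd⟩ := hz x (hconv x (interior_subset hx))
        exact hd.differentiableAt.differentiableWithinAt)
      (fun x hx => by
        obtain ⟨d, hd1, hd⟩ := hz x (hconv x (interior_subset hx))
        rw [hd.deriv]; exact hd1.le)
      s (left_mem_Icc.2 hst) t (right_mem_Icc.2 hst) hst
    linarith
  refine ⟨X, Fl, ?_, hXs, hsm, h0, hadd, hfst, hder, hinv, hfix, ?_, ?_⟩
  · intro p hp v
    rw [hX, hdY p hp]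
  · -- box
    intro q hq hXq ε hε
    obtain ⟨ρ, t₀, U, ht₀, hU, hρ, hd, hcoord⟩ := hloc q hq hXq
    -- the coordinate property along the flow
    rw [nhds_prod_eq, eventually_prod_iff] at hcoord
    obtain ⟨pa, ha, pb, hb, hab⟩ := hcoord
    have hFl0 : ∀ᶠ z : (ℝ × Y) × ℝ in 𝓝 (q, 0), pa (Fl z.1 z.2) := by
      have h1 : ContinuousAt (fun z : (ℝ × Y) × ℝ => Fl z.1 z.2) (q, 0) :=
        hsm.continuous.continuousAt
      have h2 : Fl q 0 = q := h0 q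
      refine h1.eventually ?_
      show ∀ᶠ y in 𝓝 (Fl q 0), pa y
      rw [h2]; exact ha
    rw [nhds_prod_eq, eventually_prod_iff] at hFl0
    obtain ⟨pc, hc', pd, hd', hcd⟩ := hFl0
    obtain ⟨δ, hδ, hδd⟩ := Metric.eventually_nhds_iff.1 hd'
    set η : ℝ := min (min ε t₀) δ / 2 with hη
    have hηpos : 0 < η := by
      have : 0 < min (min ε t₀) δ := lt_min (lt_min hε ht₀) hδ
      positivity
    have hη1 : η < ε := by
      have h1 : min (min ε t₀) δ ≤ ε := (min_le_left _ _).trans (min_le_left _ _)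
      have h2 : 0 < min (min ε t₀) δ := lt_min (lt_min hε ht₀) hδ
      rw [hη]; linarith
    have hη2 : η ≤ t₀ := by
      have h1 : min (min ε t₀) δ ≤ t₀ := (min_le_left _ _).trans (min_le_right _ _)
      have h2 : 0 < min (min ε t₀) δ := lt_min (lt_min hε ht₀) hδ
      rw [hη]; linarith
    have hη3 : η < δ := by
      have h1 : min (min ε t₀) δ ≤ δ := min_le_right _ _
      have h2 : 0 < min (min ε t₀) δ := lt_min (lt_min hε ht₀) hδ
      rw [hη]; linarith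
    have hclose : ∀ᶠ p : (ℝ × Y) × (ℝ × Y) in 𝓝 (q, q), |ρ p.1.2 - ρ p.2.2| < η / 4 := by
      have h1 : IsOpen {p : (ℝ × Y) × (ℝ × Y) | |ρ p.1.2 - ρ p.2.2| < η / 4} := by
        refine isOpen_lt (Continuous.abs ?_) continuous_const
        exact (hρ.comp (by fun_prop)).sub (hρ.comp (by fun_prop))
      refine h1.mem_nhds ?_
      show |ρ q.2 - ρ q.2| < η / 4
      rw [sub_self, abs_zero]; positivity
    have e1 : ∀ᶠ p : (ℝ × Y) × (ℝ × Y) in 𝓝 (q, q), p.1 ∈ U ∧ pc p.1 ∧ pb p.2 := by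
      have c1 : Tendsto (fun p : (ℝ × Y) × (ℝ × Y) => p.1) (𝓝 (q, q)) (𝓝 q) :=
        continuous_fst.tendsto (q, q)
      have c2 : Tendsto (fun p : (ℝ × Y) × (ℝ × Y) => p.2) (𝓝 (q, q)) (𝓝 q) :=
        continuous_snd.tendsto (q, q)
      filter_upwards [c1 hU, c1.eventually hc', c2.eventually hb] with p a1 a2 a3
      exact ⟨a1, a2, a3⟩
    filter_upwards [hclose, e1] with p hp1 hp2 hpP1 hpP2 hp3
    obtain ⟨hpU, hpc, hpb⟩ := hp2
    have hd1 := hd p.1 hpU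
    have hηa : |η| ≤ t₀ := by rw [abs_of_pos hηpos]; exact hη2
    have hηa' : |-η| ≤ t₀ := by rw [abs_neg]; exact hηa
    have h0a : |(0:ℝ)| ≤ t₀ := by rw [abs_zero]; exact ht₀.le
    have g1 := hmono hd1 0 η h0a hηa hηpos.le
    have g2 := hmono hd1 (-η) 0 hηa' h0a (by linarith)
    rw [h0] at g1 g2
    rw [abs_lt] at hp1
    have hcontρ : ContinuousOn (fun t => ρ (Fl p.1 t).2) (Icc (-η) η) :=
      (hρ.comp (continuous_snd.comp (hFc p.1))).continuousOn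
    obtain ⟨s, hs, hse⟩ := intermediate_value_Icc (by linarith : -η ≤ η) hcontρ
      (show ρ p.2.2 ∈ Icc (ρ (Fl p.1 (-η)).2) (ρ (Fl p.1 η).2) from
        ⟨by linarith [hp1.1, hp1.2], by linarith [hp1.1, hp1.2]⟩)
    have hsη : |s| ≤ η := abs_le.2 hs
    refine ⟨s, hsη.trans_lt hη1, ?_⟩
    have h1 : pa (Fl p.1 s) := hcd hpc (hδd (by rw [Real.dist_eq, sub_zero]; linarith))
    have h2 := hab h1 hpb (by rw [hfst]; exact hp3) (by
      rw [((hPO _).1 (hinv _ hpP1 s)).2, ((hPO _).1 hpP2).2]) hse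
    exact h2.symm
  · -- no short periods
    intro q hq hXq
    obtain ⟨ρ, t₀, U, ht₀, hU, hρ, hd, -⟩ := hloc q hq hXq
    refine ⟨t₀, ht₀, ?_⟩
    filter_upwards [hU] with z hz t ht htt heq
    have g1 := hmono (hd z hz) 0 t (by rw [abs_zero]; exact ht₀.le)
      (by rw [abs_of_pos ht]; exact htt) ht.le
    rw [heq, h0] at g1
    linarith

/-- the restriction of the flow to the piece satisfies the abstract assumptions -/
lemma PFlow.flw [T2Space Y] {Φ : ℝ × Y → ℝ} {P : Set (ℝ × Y)} {X : ℝ × Y → E'}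
    {Fl : ℝ × Y → ℝ → ℝ × Y} (H : PFlow J w' Φ P X Fl) :
    Flw (S := P) (fun z t => ⟨Fl z.1 t, H.mem z.1 z.2 t⟩) (fun z => z.1.1) := by
  have hnf : ∀ q : P, (∃ t, (⟨Fl q.1 t, H.mem q.1 q.2 t⟩ : P) ≠ q) → X q.1 ≠ 0 := by
    rintro q ⟨t, ht⟩ h0
    apply ht
    exact Subtype.ext (H.fixed q.1 h0 t)
  refine ⟨?_, ?_, ?_, ?_, ?_, ?_, ?_⟩
  · refine Continuous.subtype_mk ?_ _
    exact H.smooth.continuous.comp ((continuous_subtype_val.comp continuous_fst).prodMk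
      continuous_snd)
  · intro z; exact Subtype.ext (H.zero z.1)
  · intro z s t; exact Subtype.ext (H.add z.1 s t)
  · exact continuous_fst.comp continuous_subtype_val
  · intro z t; exact H.fst z.1 t
  · intro q hq ε hε
    have h1 := H.box q.1 q.2 (hnf q hq) ε hε
    have h2 : Continuous fun p : P × P => ((p.1 : ℝ × Y), (p.2 : ℝ × Y)) :=
      (continuous_subtype_val.comp continuous_fst).prodMk
        (continuous_subtype_val.comp continuous_snd)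
    filter_upwards [(h2.tendsto (q, q)).eventually h1] with p hp hpf
    obtain ⟨s, hs, hse⟩ := hp p.1.2 p.2.2 hpf
    exact ⟨s, hs, Subtype.ext hse⟩
  · intro q hq
    obtain ⟨t₀, ht₀, h1⟩ := H.short q.1 q.2 (hnf q hq)
    refine ⟨t₀, ht₀, ?_⟩
    filter_upwards [(continuous_subtype_val.tendsto q).eventually h1] with z hz t h2 h3 h4
    exact hz t h2 h3 (congrArg Subtype.val h4)

end Pool.Agent.J4.H62.We
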