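import Mathlib
import Pool.Agent.J4.H62.We.Piece
import Pool.Agent.J4.H27.Wn.PartA
import Pool.Agent.J4.H27.Wn.Surface

/-! The orbits of `H(x, y) = Φ(F(x), y)`: the `Y`-component follows the fibrewise flow and the
`N`-component follows the flow of `F` with a variable speed. -/

open scoped Topology ContDiff Manifold
open Set Filter Pool.Agent.Helper186 Pool.Agent.J4.H27.Wn

noncomputable section

namespace Pool.Agent.J4.H62.We

set_option linter.unusedSectionVars false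

universe u v

section base

variable {E : Type u} [NormedAddCommGroup E] [NormedSpace ℝ E] [FiniteDimensional ℝ E]
  {K : Type*} [TopologicalSpace K] {I : ModelWithCorners ℝ E K} [I.Boundaryless]
  {N : Type*} [TopologicalSpace N] [ChartedSpace K N] [IsManifold I ∞ N]
  {w : N → E →L[ℝ] E →L[ℝ] ℝ}

variable (I) in
/-- the flow of `F` near the compact set `PN` -/
structure BFlow (w : N → E →L[ℝ] E →L[ℝ] ℝ) (F : N → ℝ) (PN : Set N)
    (V : (x : N) → TangentSpace I x) (θ : N → ℝ → N) : Prop where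
  ham : ∀ x ∈ PN, ∀ u, w x (V x) u = - dif I F x u
  Vs : ContMDiff I I.tangent ∞ (fun x => (⟨x, V x⟩ : TangentBundle I N))
  smooth : ContMDiff (I.prod 𝓘(ℝ, ℝ)) I ∞ (fun p : N × ℝ => θ p.1 p.2)
  zero : ∀ x, θ x 0 = x
  der : ∀ x t, HasMFDerivAt 𝓘(ℝ, ℝ) I (θ x) t ((1 : ℝ →L[ℝ] ℝ).smulRight (V (θ x t)))
  mem : ∀ x ∈ PN, ∀ t, θ x t ∈ PN ∧ F (θ x t) = F x

theorem exists_base_flow [T2Space N] [SigmaCompactSpace N] (hw : SmoothTwo I w)
    (halt : ∀ x v, w x v v = 0) (hnd : ∀ x v, (∀ u, w x v u = 0) → v = 0)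
    {F : N → ℝ} (hF : Sm I F) {A : Set ℝ} {PN : Set N} (hPN : IsCompact PN)
    (hA : ∀ x, x ∈ PN ↔ F x ∈ A) : ∃ V θ, BFlow I w F PN V θ := by
  have : IsManifold I 1 N := IsManifold.of_le (n := ∞) (by simp)
  obtain ⟨χ, C, hχ, hC, -, hχ1, hχ0⟩ := exists_cutoff I hPN isOpen_univ (subset_univ PN)
  set f : N → ℝ := fun x => χ x * F x with hfdef
  have hf : Sm I f := hχ.mul hF
  obtain ⟨X, hXs, hX⟩ := exists_hamX hw hnd hf
  have hX0 : ∀ x ∉ C, X x = 0 := by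
    intro x hx
    apply hnd x
    intro u
    rw [hX]
    have h1 : f =ᶠ[𝓝 x] fun _ => 0 := by
      filter_upwards [hC.isClosed.isOpen_compl.mem_nhds hx] with y hy
      simp [hfdef, hχ0 y hy]
    have h2 : dif I f x = 0 := by
      unfold dif
      rw [h1.mfderiv_eq, mfderiv_const]
      rfl
    rw [h2]
    simp
  choose Fl h0 hFl using complete_of_compact hXs hC hX0
  have hsm := contMDiff_flow hXs h0 hFl
  have hfh : ∀ x ∈ PN, ∀ᶠ y in 𝓝 x, f y = F y := by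
    intro x hx
    filter_upwards [hχ1.filter_mono (nhds_le_nhdsSet hx)] with y hy
    simp [hfdef, hy]
  have hdf : ∀ x ∈ PN, dif I f x = dif I F x := by
    intro x hx
    unfold dif
    rw [Filter.EventuallyEq.mfderiv_eq (hfh x hx)]
  have hfc : ∀ x t, f (Fl x t) = f x := by
    intro x t
    have hd : ∀ s, HasDerivAt (fun s => f (Fl x s)) 0 s := by
      intro s
      have h1 := hasDerivAt_along (v := (show E from X (Fl x s))) (hFl x s) hf
      have h2 : dif I f (Fl x s) (X (Fl x s)) = 0 := by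
        have h3 := hX (Fl x s) (X (Fl x s))
        have h4 : w (Fl x s) (X (Fl x s)) (X (Fl x s)) = 0 := halt (Fl x s) (show E from X (Fl x s))
        rw [h4] at h3
        linarith
      rwa [h2] at h1
    have := is_const_of_deriv_eq_zero (fun s => (hd s).differentiableAt)
      (fun s => (hd s).deriv) t 0
    simpa [h0] using this
  have hFc : ∀ x, Continuous (Fl x) := fun x => (hFl x).continuous
  have hinv : ∀ x ∈ PN, ∀ t, Fl x t ∈ PN ∧ F (Fl x t) = F x := by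
    intro x hx
    have hcl : IsClopen {t | Fl x t ∈ PN ∧ F (Fl x t) = F x} := by
      constructor
      · exact (hPN.isClosed.preimage (hFc x)).inter
          (isClosed_eq (hF.continuous.comp (hFc x)) continuous_const)
      · rw [isOpen_iff_mem_nhds]
        intro t ht
        filter_upwards [(hFc x).continuousAt.eventually (hfh _ ht.1)] with s hs
        have h1 : F (Fl x s) = F x := by
          rw [← hs, hfc, (hfh x hx).self_of_nhds]
        exact ⟨(hA _).2 (by rw [h1]; exact (hA x).1 hx), h1⟩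
    have huniv : {t | Fl x t ∈ PN ∧ F (Fl x t) = F x} = univ := hcl.eq_univ ⟨0, by
      show Fl x 0 ∈ PN ∧ F (Fl x 0) = F x
      rw [h0]; exact ⟨hx, rfl⟩⟩
    intro t
    have : t ∈ {t | Fl x t ∈ PN ∧ F (Fl x t) = F x} := by rw [huniv]; trivial
    exact this
  exact ⟨X, Fl, fun x hx u => by rw [hX, hdf x hx], hXs, hsm, h0, hFl, hinv⟩

end base

variable {E : Type u} [NormedAddCommGroup E] [NormedSpace ℝ E] [FiniteDimensional ℝ E]
  {K : Type*} [TopologicalSpace K] {I : ModelWithCorners ℝ E K} [I.Boundaryless]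
  {N : Type*} [TopologicalSpace N] [ChartedSpace K N] [IsManifold I ∞ N]
  {w : N → E →L[ℝ] E →L[ℝ] ℝ}
  {E' : Type v} [NormedAddCommGroup E'] [NormedSpace ℝ E'] [FiniteDimensional ℝ E']
  {K' : Type*} [TopologicalSpace K'] {J : ModelWithCorners ℝ E' K'} [J.Boundaryless]
  {Y : Type*} [TopologicalSpace Y] [ChartedSpace K' Y] [IsManifold J ∞ Y]
  {w' : Y → E' →L[ℝ] E' →L[ℝ] ℝ}

/-- the vertical derivative is smooth -/
lemma sm_dR {Φ : ℝ × Y → ℝ} (hΦ : Sm (𝓘(ℝ, ℝ).prod J) Φ) : Sm (𝓘(ℝ, ℝ).prod J) (dR Φ) := by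
  intro p
  have h1 := contMDiffAt_dS (I := 𝓘(ℝ, ℝ)) (J := J) (i := Φ) isOpen_univ hΦ.contMDiffOn
    (mem_univ p)
  have h3 : ContMDiff 𝓘(ℝ, ℝ).tangent 𝓘(ℝ, ℝ) ∞
      (fun v : TangentBundle 𝓘(ℝ, ℝ) ℝ => (show ℝ from v.2)) :=
    contMDiff_snd_tangentBundle_modelSpace ℝ 𝓘(ℝ, ℝ)
  have h4 := (h3 _).comp p h1
  refine h4.congr_of_eventuallyEq (Filter.Eventually.of_forall fun q => ?_)
  show deriv (fun s => Φ (s, q.2)) q.1 = mfderiv 𝓘(ℝ, ℝ) 𝓘(ℝ, ℝ) (fun s => Φ (s, q.2)) q.1 (1:ℝ)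
  rw [mfderiv_eq_fderiv]
  exact fderiv_apply_one_eq_deriv.symm

lemma hasDerivAt_dR {Φ : ℝ × Y → ℝ} (hΦ : Sm (𝓘(ℝ, ℝ).prod J) Φ) (p : ℝ × Y) :
    HasDerivAt (fun s => Φ (s, p.2)) (dR Φ p) p.1 := by
  have h1 : Sm 𝓘(ℝ, ℝ) (fun s => Φ (s, p.2)) := sm_left hΦ p.2
  exact ((contMDiff_iff_contDiff.1 h1).differentiable (by simp) p.1).hasDerivAt

/-- the composite Hamiltonian -/
def Hm (F : N → ℝ) (Φ : ℝ × Y → ℝ) (p : N × Y) : ℝ := Φ (F p.1, p.2)

lemma sm_Hm {F : N → ℝ} (hF : Sm I F) {Φ : ℝ × Y → ℝ} (hΦ : Sm (𝓘(ℝ, ℝ).prod J) Φ) :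
    Sm (I.prod J) (Hm F Φ) :=
  hΦ.comp ((hF.comp contMDiff_fst).prodMk contMDiff_snd)

lemma dif_left {F : N → ℝ} (hF : Sm I F) {Φ : ℝ × Y → ℝ} (hΦ : Sm (𝓘(ℝ, ℝ).prod J) Φ)
    (x : N) (y : Y) (u : E) :
    dif I (fun x => Hm F Φ (x, y)) x u = dR Φ (F x, y) * dif I F x u := by
  have h1 : HasMFDerivAt 𝓘(ℝ, ℝ) 𝓘(ℝ, ℝ) (fun s => Φ (s, y)) (F x)
      ((1 : ℝ →L[ℝ] ℝ).smulRight (dR Φ (F x, y))) :=
    (hasDerivAt_dR hΦ (F x, y)).hasFDerivAt.hasMFDerivAt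
  have h2 : HasMFDerivAt I 𝓘(ℝ, ℝ) F x (mfderiv I 𝓘(ℝ, ℝ) F x) :=
    (hF.mdifferentiableAt (by simp)).hasMFDerivAt
  have h3 := (HasMFDerivAt.comp x h1 h2).mfderiv
  have h4 : dif I (fun x => Hm F Φ (x, y)) x =
    (show E →L[ℝ] ℝ from mfderiv I 𝓘(ℝ, ℝ) ((fun s => Φ (s, y)) ∘ F) x) := rfl
  rw [h4, h3]
  exact mul_comm _ _

lemma dif_Hm {F : N → ℝ} (hF : Sm I F) {Φ : ℝ × Y → ℝ} (hΦ : Sm (𝓘(ℝ, ℝ).prod J) Φ)
    (x : N) (y : Y) (u : E × E') :
    dif (I.prod J) (Hm F Φ) (x, y) u = dR Φ (F x, y) * dif I F x u.1 + dY J Φ (F x, y) u.2 := by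
  rw [dif_prod (sm_Hm hF hΦ), dif_left hF hΦ]
  rfl

/-- the elapsed time of the base flow -/
def tau (Φ : ℝ × Y → ℝ) (Fl : ℝ × Y → ℝ → ℝ × Y) (z : ℝ × Y) (t : ℝ) : ℝ :=
  ∫ r in (0:ℝ)..t, dR Φ (Fl z r)

/-- **The orbits.** -/
theorem orbit_drive {F : N → ℝ} (hF : Sm I F) {Φ : ℝ × Y → ℝ} (hΦ : Sm (𝓘(ℝ, ℝ).prod J) Φ)
    {P : Set (ℝ × Y)} {X : ℝ × Y → E'} {Fl : ℝ × Y → ℝ → ℝ × Y} (H : PFlow J w' Φ P X Fl)
    {PN : Set N} {V : (x : N) → TangentSpace I x} {θ : N → ℝ → N} (B : BFlow I w F PN V θ)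
    {x : N} (hx : x ∈ PN) {y : Y} (hz : (F x, y) ∈ P) :
    IsOrbit (I.prod J) (prodForm w w') (Hm F Φ)
      (fun t => (θ x (tau Φ Fl (F x, y) t), (Fl (F x, y) t).2)) := by
  intro t
  set z := (F x, y) with hzdef
  set a : ℝ := dR Φ (Fl z t) with ha
  have hc : Continuous fun r => dR Φ (Fl z r) :=
    (sm_dR hΦ).continuous.comp (H.smooth.continuous.comp (Continuous.prodMk_right z))
  have hτ : HasDerivAt (tau Φ Fl z) a t :=
    intervalIntegral.integral_hasDerivAt_right (hc.intervalIntegrable _ _)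
      (hc.stronglyMeasurableAtFilter _ _) hc.continuousAt
  have h1 : HasMFDerivAt 𝓘(ℝ, ℝ) 𝓘(ℝ, ℝ) (tau Φ Fl z) t ((1 : ℝ →L[ℝ] ℝ).smulRight a) :=
    hτ.hasFDerivAt.hasMFDerivAt
  have h2 := HasMFDerivAt.comp t (g := θ x) (f := tau Φ Fl z) (B.der x _) h1
  have h3 := h2.prodMk (H.der z t)
  refine ⟨(a • (V (θ x (tau Φ Fl z t)) : E), X (Fl z t)), ?_, ?_⟩
  · refine h3.congr_mfderiv ?_
    refine ContinuousLinearMap.ext fun (r : ℝ) => ?_
    refine Prod.ext ?_ rfl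
    show (r * a) • (V (θ x (tau Φ Fl z t)) : E) = r • (a • (V (θ x (tau Φ Fl z t)) : E))
    rw [smul_smul]
  · intro u
    obtain ⟨hm, hFm⟩ := B.mem x hx (tau Φ Fl z t)
    have hfst : (Fl z t) = (F (θ x (tau Φ Fl z t)), (Fl z t).2) := by
      refine Prod.ext ?_ rfl
      rw [H.fst, hFm]
    have e1 := B.ham _ hm u.1
    have e2 := H.ham _ (H.mem z hz t) u.2
    rw [dif_Hm hF hΦ, prodForm_apply, ← hfst]
    have gen : ∀ v₀ : E, w (θ x (tau Φ Fl z t)) v₀ u.1 = - dif I F (θ x (tau Φ Fl z t)) u.1 →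
        w (θ x (tau Φ Fl z t)) (a • v₀) u.1 + w' (Fl z t).2 (X (Fl z t)) u.2 =
          -(dR Φ (Fl z t) * dif I F (θ x (tau Φ Fl z t)) u.1 + dY J Φ (Fl z t) u.2) := by
      intro v₀ hv₀
      rw [map_smul, smul_apply, smul_eq_mul, e2, hv₀]
      ring
    exact gen _ e1

/-- **Zero elapsed time gives periodic orbits.** -/
theorem periodic_drive {F : N → ℝ} (hF : Sm I F) {Φ : ℝ × Y → ℝ} (hΦ : Sm (𝓘(ℝ, ℝ).prod J) Φ)
    {c : ℝ} {P : Set (ℝ × Y)} {X : ℝ × Y → E'} {Fl : ℝ × Y → ℝ → ℝ × Y}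
    (H : PFlow J w' Φ P X Fl) (hPc : ∀ p ∈ P, Φ p = c)
    {PN : Set N} {V : (x : N) → TangentSpace I x} {θ : N → ℝ → N} (B : BFlow I w F PN V θ)
    {x : N} (hx : x ∈ PN) {y : Y} (hz : (F x, y) ∈ P) {T : ℝ} (hT : 0 < T)
    (hper : Fl (F x, y) T = (F x, y)) (hτ : tau Φ Fl (F x, y) T = 0) :
    ∃ γ : ℝ → N × Y, γ 0 = (x, y) ∧ (∀ t, γ (t + T) = γ t) ∧
      IsPeriodicIn (I.prod J) (prodForm w w') (Hm F Φ) {p | Hm F Φ p = c} γ := by
  set z := (F x, y) with hzdef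
  have hc : Continuous fun r => dR Φ (Fl z r) :=
    (sm_dR hΦ).continuous.comp (H.smooth.continuous.comp (Continuous.prodMk_right z))
  have hp : ∀ t, Fl z (t + T) = Fl z t := by
    intro t
    rw [add_comm, H.add, hper]
  have hτp : ∀ t, tau Φ Fl z (t + T) = tau Φ Fl z t := by
    intro t
    have h1 : tau Φ Fl z (t + T) = tau Φ Fl z T + ∫ r in T..(t + T), dR Φ (Fl z r) :=
      (intervalIntegral.integral_add_adjacent_intervals (hc.intervalIntegrable _ _)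
        (hc.intervalIntegrable _ _)).symm
    have h2 : ∫ r in T..(t + T), dR Φ (Fl z r) = tau Φ Fl z t := by
      have h3 := intervalIntegral.integral_comp_add_right (a := 0) (b := t)
        (fun r => dR Φ (Fl z r)) T
      rw [zero_add] at h3
      rw [← h3]
      unfold tau
      simp_rw [hp]
    rw [h1, h2, hτ, zero_add]
  have hγp : ∀ t, ((θ x (tau Φ Fl z (t + T)), (Fl z (t + T)).2) : N × Y) =
      (θ x (tau Φ Fl z t), (Fl z t).2) := fun t => by rw [hp, hτp]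
  refine ⟨fun t => (θ x (tau Φ Fl z t), (Fl z t).2), ?_, hγp,
    orbit_drive hF hΦ H B hx hz, ⟨T, hT, hγp⟩, ?_⟩
  · have h1 : tau Φ Fl z 0 = 0 := by unfold tau; rw [intervalIntegral.integral_same]
    show (θ x (tau Φ Fl z 0), (Fl z 0).2) = (x, y)
    rw [h1, B.zero, H.zero]
  · intro t
    show Φ (F (θ x (tau Φ Fl z t)), (Fl z t).2) = c
    have h1 : (F (θ x (tau Φ Fl z t)), (Fl z t).2) = Fl z t := by
      refine Prod.ext ?_ rfl
      show F _ = (Fl z t).1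
      rw [H.fst, (B.mem x hx _).2]
    rw [h1]
    exact hPc _ (H.mem z hz t)

end Pool.Agent.J4.H62.We
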