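import Mathlib

/-! A compact piece `P` of a level set `{v = 0}` in `ℝ × Y`, `Y` connected, which misses a vertical
line cannot have the property that `v` increases in the vertical direction at all the local maxima
and minima of the height on `P`. -/

open Set Filter
open scoped Topology unitInterval

noncomputable section

namespace Pool.Agent.J4.H62.We

variable {Y : Type*} [TopologicalSpace Y]

/-- the clamped height in the collar -/
def cl (ε t : ℝ) : ℝ := max 0 (min 1 (1 / 2 + t / (2 * ε)))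

lemma cl_cont (ε : ℝ) : Continuous (cl ε) := by
  unfold cl; fun_prop

lemma cl_of_ge {ε t : ℝ} (hε : 0 < ε) (ht : ε ≤ t) : cl ε t = 1 := by
  unfold cl
  have h1 : 1 / 2 ≤ t / (2 * ε) := by rw [le_div_iff₀ (by positivity)]; linarith
  rw [min_eq_left (by linarith), max_eq_right zero_le_one]

lemma cl_of_le {ε t : ℝ} (hε : 0 < ε) (ht : t ≤ -ε) : cl ε t = 0 := by
  unfold cl
  have h1 : t / (2 * ε) ≤ -(1 / 2) := by rw [div_le_iff₀ (by positivity)]; linarith
  apply max_eq_left
  exact (min_le_right _ _).trans (by linarith)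

lemma cl_mid {ε t : ℝ} (hε : 0 < ε) (ht : |t| ≤ ε) : cl ε t = 1 / 2 + t / (2 * ε) := by
  unfold cl
  rw [abs_le] at ht
  have h1 : t / (2 * ε) ≤ 1 / 2 := by rw [div_le_iff₀ (by positivity)]; linarith
  have h2 : -(1 / 2) ≤ t / (2 * ε) := by rw [le_div_iff₀ (by positivity)]; linarith
  rw [min_eq_right (by linarith), max_eq_right (by linarith)]

lemma cl_mem (ε t : ℝ) : 0 ≤ cl ε t ∧ cl ε t ≤ 1 :=
  ⟨le_max_left _ _, max_le zero_le_one (min_le_left _ _)⟩

lemma cl_half {ε t : ℝ} (hε : 0 < ε) (h : cl ε t = 1 / 2) : t = 0 := by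
  rcases le_or_gt |t| ε with h1 | h1
  · rw [cl_mid hε h1] at h
    have h2 : t / (2 * ε) = 0 := by linarith
    rcases div_eq_zero_iff.1 h2 with h3 | h3
    · exact h3
    · exfalso; linarith
  · exfalso
    rcases lt_abs.1 h1 with h2 | h2
    · rw [cl_of_ge hε h2.le] at h; norm_num at h
    · rw [cl_of_le hε (by linarith)] at h; norm_num at h

/-- two reals with the same class modulo `ℤ` -/
lemma coe_eq_iff_int {x y : ℝ} : (x : AddCircle (1:ℝ)) = (y : AddCircle (1:ℝ)) ↔
    ∃ k : ℤ, x = y + k := by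
  rw [← sub_eq_zero, ← AddCircle.coe_sub, AddCircle.coe_eq_zero_iff]
  constructor
  · rintro ⟨k, hk⟩
    refine ⟨k, ?_⟩
    simp at hk
    linarith
  · rintro ⟨k, hk⟩
    refine ⟨k, ?_⟩
    simp
    linarith

theorem no_piece [PreconnectedSpace Y] [T2Space Y] [LocallyCompactSpace Y] {v : ℝ × Y → ℝ}
    (hv : Continuous v)
    {P O : Set (ℝ × Y)} (hP : IsCompact P) (hPne : P.Nonempty) (hO : IsOpen O)
    (hPO : ∀ p, p ∈ P ↔ p ∈ O ∧ v p = 0) {y₀ : Y} (hy₀ : ∀ s, (s, y₀) ∉ P)
    (hmax : ∀ q ∈ P, (∀ᶠ p in 𝓝 q, p ∈ P → p.1 ≤ q.1) → ∀ᶠ s in 𝓝[>] q.1, 0 < v (s, q.2))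
    (hmin : ∀ q ∈ P, (∀ᶠ p in 𝓝 q, p ∈ P → q.1 ≤ p.1) → ∀ᶠ s in 𝓝[<] q.1, v (s, q.2) < 0) :
    False := by
  classical
  have hPsub : P ⊆ O := fun p hp => ((hPO p).1 hp).1
  obtain ⟨K, hK, hPK, hKO⟩ := exists_compact_between hP hO hPsub
  -- `v ≠ 0` on the frontier
  obtain ⟨ε, hε, hεb⟩ : ∃ ε > 0, ∀ p ∈ K \ interior K, ε < |v p| := by
    have hc : IsCompact (K \ interior K) := hK.diff isOpen_interior
    rcases (K \ interior K).eq_empty_or_nonempty with he | hne
    · exact ⟨1, one_pos, by simp [he]⟩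
    · obtain ⟨z₀, hz₀, hmn⟩ := hc.exists_isMinOn hne (hv.abs).continuousOn
      have hpos : 0 < |v z₀| := by
        apply abs_pos.2
        intro h0
        exact hz₀.2 (hPK ((hPO z₀).2 ⟨hKO hz₀.1, h0⟩))
      refine ⟨|v z₀| / 2, half_pos hpos, fun z hz => ?_⟩
      have h1 : |v z₀| ≤ |v z| := hmn hz
      linarith
  -- the circle valued map
  let r : ℝ × Y → ℝ := fun p => if p ∈ K then cl ε (v p) else 0
  have hr : ∀ p, r p = if p ∈ K then cl ε (v p) else 0 := fun _ => rfl
  let Ec : ℝ × Y → AddCircle (1:ℝ) := fun p => (r p : AddCircle (1:ℝ))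
  have hone : ((1:ℝ) : AddCircle (1:ℝ)) = 0 := AddCircle.coe_period 1
  have hrU : ∀ p ∈ interior K, ∀ᶠ q in 𝓝 p, r q = cl ε (v q) := by
    intro p hp
    filter_upwards [isOpen_interior.mem_nhds hp] with q hq
    rw [hr, if_pos (interior_subset hq)]
  have hEc : Continuous Ec := by
    rw [continuous_iff_continuousAt]
    intro p
    by_cases hpU : p ∈ interior K
    · have h1 : ContinuousAt (fun q => ((cl ε (v q) : ℝ) : AddCircle (1:ℝ))) p :=
        ((AddCircle.continuous_mk' (1:ℝ)).comp ((cl_cont ε).comp hv)).continuousAt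
      refine h1.congr ?_
      filter_upwards [hrU p hpU] with q hq
      show _ = ((r q : ℝ) : AddCircle (1:ℝ))
      rw [hq]
    · have h1 : ∀ᶠ q in 𝓝 p, Ec q = 0 := by
        by_cases hpK : p ∈ K
        · have h2 : IsOpen {q | ε < |v q|} := isOpen_lt continuous_const hv.abs
          filter_upwards [h2.mem_nhds (hεb p ⟨hpK, hpU⟩)] with q hq
          have hq' : ε < |v q| := hq
          show ((r q : ℝ) : AddCircle (1:ℝ)) = 0
          rw [hr]
          split_ifs
          · rcases lt_abs.1 hq' with h3 | h3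
            · rw [cl_of_ge hε h3.le]; exact hone
            · rw [cl_of_le hε (by linarith)]; simp
          · simp
        · filter_upwards [hK.isClosed.isOpen_compl.mem_nhds hpK] with q hq
          show ((r q : ℝ) : AddCircle (1:ℝ)) = 0
          rw [hr, if_neg hq]; simp
      have h2 : Ec p = 0 := h1.self_of_nhds
      rw [ContinuousAt, h2]
      exact tendsto_const_nhds.congr' (h1.mono fun q hq => hq.symm)
  -- `r = 1/2` modulo one only on `P`
  have hrmem : ∀ p, 0 ≤ r p ∧ r p ≤ 1 := by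
    intro p
    rw [hr]
    split_ifs
    · exact cl_mem _ _
    · exact ⟨le_rfl, zero_le_one⟩
  have hrP : ∀ p, p ∈ P ↔ r p = 1 / 2 := by
    intro p
    constructor
    · intro hp
      rw [hr, if_pos (interior_subset (hPK hp)), ((hPO p).1 hp).2]
      rw [cl_mid hε (by simpa using hε.le)]; simp
    · intro h1
      rw [hr] at h1
      split_ifs at h1 with h2
      · exact (hPO p).2 ⟨hKO h2, cl_half hε h1⟩
      · norm_num at h1
  have hhalf : ∀ (p : ℝ × Y) (x : ℝ), (x : AddCircle (1:ℝ)) = Ec p →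
      (p ∈ P ↔ ∃ k : ℤ, x = k + 1 / 2) := by
    intro p x hx
    obtain ⟨k, hk⟩ := coe_eq_iff_int.1 hx
    rw [hrP]
    constructor
    · intro h1
      exact ⟨k, by rw [hk, h1]; ring⟩
    · rintro ⟨m, hm⟩
      have h1 := hrmem p
      have h2 : r p - 1 / 2 = ((m - k : ℤ) : ℝ) := by push_cast; linarith
      have h3 : |((m - k : ℤ) : ℝ)| < 1 := by
        rw [← h2, abs_lt]; constructor <;> linarith
      have h4 : m - k = 0 := by
        rw [← Int.cast_abs] at h3
        have h5 : |m - k| < 1 := by exact_mod_cast h3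
        exact Int.abs_lt_one_iff.1 h5
      rw [h4] at h2
      simp at h2
      linarith
  -- bounds of the height on `K`
  obtain ⟨a, b, hab, hKab⟩ : ∃ a b : ℝ, a < b ∧ ∀ p ∈ K, a < p.1 ∧ p.1 < b := by
    obtain ⟨A, hA⟩ := (hK.image continuous_fst).bddAbove
    obtain ⟨B, hB⟩ := (hK.image continuous_fst).bddBelow
    refine ⟨min B A - 1, max A B + 1, ?_, fun p hp => ⟨?_, ?_⟩⟩
    · have := min_le_left B A
      have := le_max_right A B
      linarith
    · have h1 : B ≤ p.1 := hB ⟨p, hp, rfl⟩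
      have := min_le_left B A
      linarith
    · have h1 : p.1 ≤ A := hA ⟨p, hp, rfl⟩
      have := le_max_left A B
      linarith
  -- the height as a function of the unit interval
  let ht : unitInterval → ℝ := fun t => a + t * (b - a)
  have htc : Continuous ht := by
    show Continuous fun t : unitInterval => a + (t : ℝ) * (b - a)
    fun_prop
  have hEa : ∀ y, Ec (a, y) = 0 := by
    intro y
    show ((r (a, y) : ℝ) : AddCircle (1:ℝ)) = 0
    rw [hr, if_neg (fun h => absurd (hKab _ h).1 (lt_irrefl _))]; simp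
  have hEb : ∀ y, Ec (b, y) = 0 := by
    intro y
    show ((r (b, y) : ℝ) : AddCircle (1:ℝ)) = 0
    rw [hr, if_neg (fun h => absurd (hKab _ h).2 (lt_irrefl _))]; simp
  let Hm : C(unitInterval × Y, AddCircle (1:ℝ)) := ⟨fun p => Ec (ht p.1, p.2),
    hEc.comp ((htc.comp continuous_fst).prodMk continuous_snd)⟩
  let f0 : C(Y, ℝ) := ⟨fun _ => 0, continuous_const⟩
  have hH0 : ∀ y, Hm (0, y) = ((f0 y : ℝ) : AddCircle (1:ℝ)) := by
    intro y
    show Ec (ht 0, y) = ((0:ℝ) : AddCircle (1:ℝ))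
    have : ht 0 = a := by simp [ht]
    rw [this, hEa]; simp
  have cov : IsCoveringMap ((↑) : ℝ → AddCircle (1:ℝ)) := AddCircle.isCoveringMap_coe 1
  let G : C(unitInterval × Y, ℝ) := cov.liftHomotopy Hm f0 hH0
  have hG0 : ∀ y, G (0, y) = 0 := fun y => cov.liftHomotopy_zero Hm f0 hH0 y
  have hGE : ∀ t y, ((G (t, y) : ℝ) : AddCircle (1:ℝ)) = Ec (ht t, y) := fun t y =>
    congrFun (cov.liftHomotopy_lifts Hm f0 hH0) (t, y)
  have hGP : ∀ t y, (ht t, y) ∈ P ↔ ∃ k : ℤ, G (t, y) = k + 1 / 2 := fun t y => hhalf _ _ (hGE t y)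
  have hone' : ht 1 = b := by simp [ht]
  -- vertical paths
  have hGc : ∀ y, Continuous fun t => G (t, y) := fun y =>
    G.continuous.comp (Continuous.prodMk_left y)
  have hG1int : ∀ y, ∃ k : ℤ, G (1, y) = k := by
    intro y
    have h1 := hGE 1 y
    rw [hone', hEb] at h1
    have h2 : ((G (1, y) : ℝ) : AddCircle (1:ℝ)) = ((0:ℝ) : AddCircle (1:ℝ)) := by rw [h1]; simp
    obtain ⟨k, hk⟩ := coe_eq_iff_int.1 h2
    exact ⟨k, by rw [hk]; ring⟩
  have hG1 : ∀ y, G (1, y) = 0 := by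
    have hc : Continuous fun y => G (1, y) := G.continuous.comp (Continuous.prodMk_right 1)
    have h0 : G (1, y₀) = 0 := by
      obtain ⟨k, hk⟩ := hG1int y₀
      by_contra hne
      have hk0 : k ≠ 0 := by
        rintro rfl; apply hne; rw [hk]; simp
      have hmem : (if 0 < k then (1:ℝ) / 2 else -(1 / 2)) ∈ (fun t => G (t, y₀)) '' univ := by
        have hconn : IsPreconnected (univ : Set unitInterval) := isPreconnected_univ
        split_ifs with hkp
        · have h1 : (1:ℝ) ≤ k := by exact_mod_cast hkp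
          exact hconn.intermediate_value (mem_univ 0) (mem_univ 1) (hGc y₀).continuousOn
            ⟨by rw [hG0]; norm_num, by rw [hk]; linarith⟩
        · have h1 : (k:ℝ) ≤ -1 := by
            have : k ≤ -1 := by omega
            exact_mod_cast this
          exact hconn.intermediate_value (mem_univ 1) (mem_univ 0) (hGc y₀).continuousOn
            ⟨by rw [hk]; linarith, by rw [hG0]; norm_num⟩
      obtain ⟨t, -, ht'⟩ := hmem
      apply hy₀ (ht t)
      rw [hGP]
      split_ifs at ht' with hkp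
      · exact ⟨0, by simpa using ht'⟩
      · exact ⟨-1, by rw [show G (t, y₀) = -(1/2) from ht']; norm_num⟩
    -- integer valued continuous function on a preconnected space
    intro y
    by_contra hne
    obtain ⟨k, hk⟩ := hG1int y
    have hk0 : k ≠ 0 := by
      rintro rfl; apply hne; rw [hk]; simp
    have hconn : IsPreconnected (univ : Set Y) := isPreconnected_univ
    have hmem : (if 0 < k then (1:ℝ) / 2 else -(1 / 2)) ∈ (fun y => G (1, y)) '' univ := by
      split_ifs with hkp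
      · have h1 : (1:ℝ) ≤ k := by exact_mod_cast hkp
        exact hconn.intermediate_value (mem_univ y₀) (mem_univ y) hc.continuousOn
          ⟨by rw [h0]; norm_num, by rw [hk]; linarith⟩
      · have h1 : (k:ℝ) ≤ -1 := by
          have : k ≤ -1 := by omega
          exact_mod_cast this
        exact hconn.intermediate_value (mem_univ y) (mem_univ y₀) hc.continuousOn
          ⟨by rw [hk]; linarith, by rw [h0]; norm_num⟩
    obtain ⟨y', -, hy'⟩ := hmem
    obtain ⟨m, hm⟩ := hG1int y'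
    have hy'' : (m:ℝ) = if 0 < k then (1:ℝ) / 2 else -(1 / 2) := by rw [← hm]; exact hy'
    have h3 : (2 * m : ℝ) = if 0 < k then (1:ℝ) else -1 := by
      rw [hy'']; split_ifs <;> norm_num
    split_ifs at h3
    · have : 2 * m = 1 := by exact_mod_cast h3
      omega
    · have : 2 * m = -1 := by exact_mod_cast h3
      omega
  -- local form of `G` near a point of `P`
  have hloc : ∀ (t₁ : unitInterval) (y₁ : Y) (k : ℤ), G (t₁, y₁) = k + 1 / 2 →
      ∀ᶠ p : unitInterval × Y in 𝓝 (t₁, y₁),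
        G p = k + 1 / 2 + v (ht p.1, p.2) / (2 * ε) ∧ |v (ht p.1, p.2)| < ε := by
    intro t₁ y₁ k hk
    have hq : (ht t₁, y₁) ∈ P := (hGP t₁ y₁).2 ⟨k, hk⟩
    have hcont : Continuous fun p : unitInterval × Y => (ht p.1, p.2) :=
      (htc.comp continuous_fst).prodMk continuous_snd
    have e1 : ∀ᶠ p : unitInterval × Y in 𝓝 (t₁, y₁), (ht p.1, p.2) ∈ interior K :=
      hcont.continuousAt.eventually (isOpen_interior.mem_nhds (hPK hq))
    have e2 : ∀ᶠ p : unitInterval × Y in 𝓝 (t₁, y₁), |v (ht p.1, p.2)| < ε := by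
      have h1 : IsOpen {p : unitInterval × Y | |v (ht p.1, p.2)| < ε} :=
        isOpen_lt (hv.comp hcont).abs continuous_const
      refine h1.mem_nhds ?_
      show |v (ht t₁, y₁)| < ε
      rw [((hPO _).1 hq).2, abs_zero]; exact hε
    have e3 : ∀ᶠ p : unitInterval × Y in 𝓝 (t₁, y₁),
        |G p - (k + 1 / 2 + v (ht p.1, p.2) / (2 * ε))| < 1 := by
      have h1 : IsOpen {p : unitInterval × Y |
          |G p - (k + 1 / 2 + v (ht p.1, p.2) / (2 * ε))| < 1} := by
        refine isOpen_lt (Continuous.abs (G.continuous.sub (continuous_const.add ?_)))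
          continuous_const
        exact (hv.comp hcont).div_const _
      refine h1.mem_nhds ?_
      show |G (t₁, y₁) - (k + 1 / 2 + v (ht t₁, y₁) / (2 * ε))| < 1
      rw [((hPO _).1 hq).2, hk]
      simp
    filter_upwards [e1, e2, e3] with p h1 h2 h3
    refine ⟨?_, h2⟩
    have h4 := hGE p.1 p.2
    obtain ⟨m, hm⟩ := coe_eq_iff_int.1 h4
    have h5 : r (ht p.1, p.2) = 1 / 2 + v (ht p.1, p.2) / (2 * ε) := by
      rw [hr, if_pos (interior_subset h1), cl_mid hε h2.le]
    have h6 : G p = 1 / 2 + v (ht p.1, p.2) / (2 * ε) + m := by rw [← h5]; exact hm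
    rw [h6] at h3
    have h7 : |((m - k : ℤ) : ℝ)| < 1 := by
      have : ((m - k : ℤ) : ℝ) = 1 / 2 + v (ht p.1, p.2) / (2 * ε) + m -
        (k + 1 / 2 + v (ht p.1, p.2) / (2 * ε)) := by push_cast; ring
      rw [this]; exact h3
    have h8 : m - k = 0 := by
      rw [← Int.cast_abs] at h7
      have h9 : |m - k| < 1 := by exact_mod_cast h7
      exact Int.abs_lt_one_iff.1 h9
    have h10 : m = k := by omega
    rw [h6, h10]; ring
  -- a starting point
  obtain ⟨p₀, hp₀⟩ := hPne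
  have hba : 0 < b - a := by linarith
  have hsurj : ∀ p ∈ P, ∃ t : unitInterval, ht t = p.1 := by
    intro p hp
    have h1 := hKab p (interior_subset (hPK hp))
    refine ⟨⟨(p.1 - a) / (b - a), div_nonneg (by linarith) hba.le,
      (div_le_one hba).2 (by linarith)⟩, ?_⟩
    show a + (p.1 - a) / (b - a) * (b - a) = p.1
    field_simp
    ring
  obtain ⟨t₀, ht₀⟩ := hsurj p₀ hp₀
  obtain ⟨k, hk⟩ := (hGP t₀ p₀.2).1 (by rw [ht₀]; exact hp₀)
  set Pk : Set (unitInterval × Y) := {p | G p = k + 1 / 2} with hPk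
  have hPkc : IsCompact Pk := by
    refine IsCompact.of_isClosed_subset (isCompact_univ.prod (hP.image continuous_snd))
      (isClosed_eq G.continuous continuous_const) ?_
    rintro ⟨t, y⟩ hp
    exact ⟨mem_univ _, (ht t, y), (hGP t y).2 ⟨k, hp⟩, rfl⟩
  have hPkne : Pk.Nonempty := ⟨(t₀, p₀.2), hk⟩
  have hmono : ∀ t t' : unitInterval, ht t ≤ ht t' ↔ t ≤ t' := by
    intro t t'
    show a + (t:ℝ) * (b - a) ≤ a + (t':ℝ) * (b - a) ↔ t ≤ t'
    rw [add_le_add_iff_left, mul_le_mul_iff_left₀ hba, Subtype.coe_le_coe]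
  -- nearby points of `P` lie in `Pk`
  have hnear : ∀ (t₁ : unitInterval) (y₁ : Y), (t₁, y₁) ∈ Pk → ∀ᶠ p in 𝓝 (ht t₁, y₁), p ∈ P →
      ∃ t : unitInterval, ht t = p.1 ∧ (t, p.2) ∈ Pk := by
    intro t₁ y₁ hp₁
    have h1 := hloc t₁ y₁ k hp₁
    rw [nhds_prod_eq, eventually_prod_iff] at h1
    obtain ⟨pa, ha, pb, hb, hab'⟩ := h1
    -- convert the neighbourhood of `t₁` to a neighbourhood of `ht t₁`
    obtain ⟨δ, hδ, hδa⟩ := Metric.eventually_nhds_iff.1 ha
    have e1 : ∀ᶠ p : ℝ × Y in 𝓝 (ht t₁, y₁), |p.1 - ht t₁| < δ * (b - a) := by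
      have h2 : IsOpen {p : ℝ × Y | |p.1 - ht t₁| < δ * (b - a)} :=
        isOpen_lt (continuous_fst.sub continuous_const).abs continuous_const
      exact h2.mem_nhds (by show |ht t₁ - ht t₁| < _; rw [sub_self, abs_zero]; positivity)
    have e2 : ∀ᶠ p : ℝ × Y in 𝓝 (ht t₁, y₁), pb p.2 := continuous_snd.continuousAt.eventually hb
    filter_upwards [e1, e2] with p h3 h4 hpP
    obtain ⟨t, hte⟩ := hsurj p hpP
    refine ⟨t, hte, ?_⟩
    have h5 : dist t t₁ < δ := by
      rw [Subtype.dist_eq, Real.dist_eq]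
      rw [← hte] at h3
      have h6 : ht t - ht t₁ = ((t:ℝ) - t₁) * (b - a) := by
        show a + (t:ℝ) * (b - a) - (a + (t₁:ℝ) * (b - a)) = _; ring
      rw [h6, abs_mul, abs_of_pos hba] at h3
      exact lt_of_mul_lt_mul_right h3 hba.le
    have h7 := (hab' (hδa h5) h4).1
    show G (t, p.2) = k + 1 / 2
    rw [h7]
    simp only
    rw [hte, ((hPO p).1 hpP).2]
    simp
  rcases le_or_gt 0 k with hk0 | hk0
  · -- maximise the height
    obtain ⟨⟨t₁, y₁⟩, hq, hqmax⟩ := hPkc.exists_isMaxOn hPkne continuous_fst.continuousOn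
    have hqP : (ht t₁, y₁) ∈ P := (hGP t₁ y₁).2 ⟨k, hq⟩
    have h1 := hmax _ hqP (by
      filter_upwards [hnear t₁ y₁ hq] with p hp hpP
      obtain ⟨t, hte, htk⟩ := hp hpP
      rw [← hte]
      exact (hmono t t₁).2 (hqmax htk))
    -- a slightly higher point
    have ht₁b : ht t₁ < b := (hKab _ (interior_subset (hPK hqP))).2
    have h2 : ∀ᶠ s in 𝓝[>] (ht t₁), s < b := nhdsWithin_le_nhds (gt_mem_nhds ht₁b) |> fun h => by
      filter_upwards [h] with s hs using hs
    have h3 : ∀ᶠ s in 𝓝[>] (ht t₁), ∀ t : unitInterval, ht t = s →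
        G (t, y₁) = k + 1 / 2 + v (ht t, y₁) / (2 * ε) := by
      have h4 := hloc t₁ y₁ k hq
      have h5 : ∀ᶠ t in 𝓝 t₁, G (t, y₁) = k + 1 / 2 + v (ht t, y₁) / (2 * ε) := by
        have h6 : Tendsto (fun t : unitInterval => (t, y₁)) (𝓝 t₁) (𝓝 (t₁, y₁)) :=
          (Continuous.prodMk_left y₁).tendsto t₁
        filter_upwards [h6.eventually h4] with t ht' using ht'.1
      obtain ⟨δ, hδ, hδa⟩ := Metric.eventually_nhds_iff.1 h5
      have h7 : ∀ᶠ s in 𝓝 (ht t₁), |s - ht t₁| < δ * (b - a) := by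
        have h2 : IsOpen {s : ℝ | |s - ht t₁| < δ * (b - a)} :=
          isOpen_lt (continuous_id.sub continuous_const).abs continuous_const
        exact h2.mem_nhds (by show |ht t₁ - ht t₁| < _; rw [sub_self, abs_zero]; positivity)
      filter_upwards [nhdsWithin_le_nhds h7] with s hs t hts
      apply hδa
      rw [Subtype.dist_eq, Real.dist_eq]
      rw [← hts] at hs
      have h6 : ht t - ht t₁ = ((t:ℝ) - t₁) * (b - a) := by
        show a + (t:ℝ) * (b - a) - (a + (t₁:ℝ) * (b - a)) = _; ring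
      rw [h6, abs_mul, abs_of_pos hba] at hs
      exact lt_of_mul_lt_mul_right hs hba.le
    obtain ⟨s, ⟨hs1, hs2⟩, hs3, hs4⟩ := ((h1.and h2).and (h3.and self_mem_nhdsWithin)).exists
    have hs4' : ht t₁ < s := hs4
    have ha1 : a < ht t₁ := (hKab _ (interior_subset (hPK hqP))).1
    obtain ⟨t₂, ht₂⟩ : ∃ t : unitInterval, ht t = s := by
      refine ⟨⟨(s - a) / (b - a), div_nonneg (by linarith) hba.le,
        (div_le_one hba).2 (by linarith)⟩, ?_⟩
      show a + (s - a) / (b - a) * (b - a) = s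
      field_simp
      ring
    have h8 := hs3 t₂ ht₂
    have h9 : k + 1 / 2 < G (t₂, y₁) := by
      rw [h8, ht₂]
      have : 0 < v (s, y₁) / (2 * ε) := div_pos hs1 (by positivity)
      linarith
    have h10 : t₁ < t₂ := by
      by_contra hcon
      push Not at hcon
      have := (hmono t₂ t₁).2 hcon
      rw [ht₂] at this
      linarith
    have hk0' : (0:ℝ) ≤ k := by exact_mod_cast hk0
    obtain ⟨t₃, ht₃, ht₃'⟩ := (isPreconnected_Icc (a := t₂) (b := (1:unitInterval))).intermediate_value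
      (right_mem_Icc.2 t₂.2.2) (left_mem_Icc.2 t₂.2.2) (hGc y₁).continuousOn
      (show (k:ℝ) + 1 / 2 ∈ Icc (G (1, y₁)) (G (t₂, y₁)) from ⟨by rw [hG1]; linarith, h9.le⟩)
    have h11 : t₃ ≤ t₁ := hqmax (show (t₃, y₁) ∈ Pk from ht₃')
    exact absurd (h10.trans_le ht₃.1) (not_lt.2 h11)
  · -- minimise the height
    obtain ⟨⟨t₁, y₁⟩, hq, hqmin⟩ := hPkc.exists_isMinOn hPkne continuous_fst.continuousOn
    have hqP : (ht t₁, y₁) ∈ P := (hGP t₁ y₁).2 ⟨k, hq⟩
    have h1 := hmin _ hqP (by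
      filter_upwards [hnear t₁ y₁ hq] with p hp hpP
      obtain ⟨t, hte, htk⟩ := hp hpP
      rw [← hte]
      exact (hmono t₁ t).2 (hqmin htk))
    have ht₁a : a < ht t₁ := (hKab _ (interior_subset (hPK hqP))).1
    have h2 : ∀ᶠ s in 𝓝[<] (ht t₁), a < s := nhdsWithin_le_nhds (lt_mem_nhds ht₁a) |> fun h => by
      filter_upwards [h] with s hs using hs
    have h3 : ∀ᶠ s in 𝓝[<] (ht t₁), ∀ t : unitInterval, ht t = s →
        G (t, y₁) = k + 1 / 2 + v (ht t, y₁) / (2 * ε) := by
      have h4 := hloc t₁ y₁ k hq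
      have h5 : ∀ᶠ t in 𝓝 t₁, G (t, y₁) = k + 1 / 2 + v (ht t, y₁) / (2 * ε) := by
        have h6 : Tendsto (fun t : unitInterval => (t, y₁)) (𝓝 t₁) (𝓝 (t₁, y₁)) :=
          (Continuous.prodMk_left y₁).tendsto t₁
        filter_upwards [h6.eventually h4] with t ht' using ht'.1
      obtain ⟨δ, hδ, hδa⟩ := Metric.eventually_nhds_iff.1 h5
      have h7 : ∀ᶠ s in 𝓝 (ht t₁), |s - ht t₁| < δ * (b - a) := by
        have h2 : IsOpen {s : ℝ | |s - ht t₁| < δ * (b - a)} :=
          isOpen_lt (continuous_id.sub continuous_const).abs continuous_const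
        exact h2.mem_nhds (by show |ht t₁ - ht t₁| < _; rw [sub_self, abs_zero]; positivity)
      filter_upwards [nhdsWithin_le_nhds h7] with s hs t hts
      apply hδa
      rw [Subtype.dist_eq, Real.dist_eq]
      rw [← hts] at hs
      have h6 : ht t - ht t₁ = ((t:ℝ) - t₁) * (b - a) := by
        show a + (t:ℝ) * (b - a) - (a + (t₁:ℝ) * (b - a)) = _; ring
      rw [h6, abs_mul, abs_of_pos hba] at hs
      exact lt_of_mul_lt_mul_right hs hba.le
    obtain ⟨s, ⟨hs1, hs2⟩, hs3, hs4⟩ := ((h1.and h2).and (h3.and self_mem_nhdsWithin)).exists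
    have hs4' : s < ht t₁ := hs4
    have hb1 : ht t₁ < b := (hKab _ (interior_subset (hPK hqP))).2
    obtain ⟨t₂, ht₂⟩ : ∃ t : unitInterval, ht t = s := by
      refine ⟨⟨(s - a) / (b - a), div_nonneg (by linarith) hba.le,
        (div_le_one hba).2 (by linarith)⟩, ?_⟩
      show a + (s - a) / (b - a) * (b - a) = s
      field_simp
      ring
    have h8 := hs3 t₂ ht₂
    have h9 : G (t₂, y₁) < k + 1 / 2 := by
      rw [h8, ht₂]
      have : v (s, y₁) / (2 * ε) < 0 := div_neg_of_neg_of_pos hs1 (by positivity)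
      linarith
    have h10 : t₂ < t₁ := by
      by_contra hcon
      push Not at hcon
      have := (hmono t₁ t₂).2 hcon
      rw [ht₂] at this
      linarith
    have hk0' : (k:ℝ) ≤ -1 := by
      have : k ≤ -1 := by omega
      exact_mod_cast this
    obtain ⟨t₃, ht₃, ht₃'⟩ := (isPreconnected_Icc (a := (0:unitInterval)) (b := t₂)).intermediate_value
      (right_mem_Icc.2 t₂.2.1) (left_mem_Icc.2 t₂.2.1) (hGc y₁).continuousOn
      (show (k:ℝ) + 1 / 2 ∈ Icc (G (t₂, y₁)) (G (0, y₁)) from ⟨h9.le, by rw [hG0]; linarith⟩)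
    have h11 : t₁ ≤ t₃ := hqmin (show (t₃, y₁) ∈ Pk from ht₃')
    exact absurd (ht₃.2.trans_lt h10) (not_lt.2 h11)

end Pool.Agent.J4.H62.We
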