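import Mathlib
import Pool.Agent.J4.H62.We.Topo
import Pool.Agent.J4.H62.We.Drive

/-! A clopen part of a compact piece of a level set in `ℝ × Y` has a critical point of the height
where the vertical derivative is not positive. -/

open scoped Topology ContDiff Manifold
open Set Filter Pool.Agent.Helper186 Pool.Agent.J4.H27.Wn

noncomputable section

namespace Pool.Agent.J4.H62.We

set_option linter.unusedSectionVars false

universe u v

variable {E' : Type v} [NormedAddCommGroup E'] [NormedSpace ℝ E'] [FiniteDimensional ℝ E']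
  {K' : Type*} [TopologicalSpace K'] {J : ModelWithCorners ℝ E' K'} [J.Boundaryless]
  {Y : Type*} [TopologicalSpace Y] [ChartedSpace K' Y] [IsManifold J ∞ Y]

/-- where the fibrewise differential does not vanish the level set is open over the heights -/
lemma open_heights {Φ : ℝ × Y → ℝ} (hΦ : Sm (𝓘(ℝ, ℝ).prod J) Φ) {q : ℝ × Y} {W : Set (ℝ × Y)}
    (hW : IsOpen W) (hq : q ∈ W) (hne : dY J Φ q ≠ 0) :
    ∀ᶠ s in 𝓝 q.1, ∃ y, Φ (s, y) = Φ q ∧ (s, y) ∈ W := by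
  have h1 : Sm (J.prod 𝓘(ℝ, ℝ)) (fun p : Y × ℝ => Φ (p.2, p.1)) :=
    hΦ.comp (contMDiff_snd.prodMk contMDiff_fst)
  have h2 : IsOpen ((fun p : Y × ℝ => (p.2, p.1)) ⁻¹' W) := hW.preimage (by fun_prop)
  exact open_image (x₀ := q.2) (y₀ := q.1) h1 h2 hq hne

lemma slope_pos {g : ℝ → ℝ} {d s₀ : ℝ} (hg : HasDerivAt g d s₀) (hd : 0 < d) :
    (∀ᶠ s in 𝓝[>] s₀, g s₀ < g s) ∧ ∀ᶠ s in 𝓝[<] s₀, g s < g s₀ := by
  have h1 := (hasDerivAt_iff_tendsto_slope.1 hg).eventually (lt_mem_nhds hd)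
  constructor
  · have h2 : 𝓝[>] s₀ ≤ 𝓝[≠] s₀ := nhdsWithin_mono _ fun s hs => ne_of_gt hs
    filter_upwards [h2 h1, self_mem_nhdsWithin] with s hs hs2
    have hs2' : s₀ < s := hs2
    rw [slope_def_field] at hs
    have h3 := (div_pos_iff_of_pos_right (sub_pos.2 hs2')).1 hs
    linarith
  · have h2 : 𝓝[<] s₀ ≤ 𝓝[≠] s₀ := nhdsWithin_mono _ fun s hs => ne_of_lt hs
    filter_upwards [h2 h1, self_mem_nhdsWithin] with s hs hs2
    have hs2' : s < s₀ := hs2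
    rw [slope_def_field] at hs
    have h3 : s - s₀ < 0 := by linarith
    have h4 := (div_pos_iff.1 hs)
    rcases h4 with h5 | h5
    · linarith [h5.2]
    · linarith [h5.1]

/-- **Contradiction from a sign at all the critical points of a clopen part.** -/
theorem clopen_contra [T2Space Y] [ConnectedSpace Y] {Φ : ℝ × Y → ℝ}
    (hΦ : Sm (𝓘(ℝ, ℝ).prod J) Φ) {c : ℝ} {P O : Set (ℝ × Y)} (hP : IsCompact P) (hO : IsOpen O)
    (hPO : ∀ p, p ∈ P ↔ p ∈ O ∧ Φ p = c) {y₀ : Y} (hy₀ : ∀ s, (s, y₀) ∉ P) {A : Set P}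
    (hA : IsClopen A) (hne : A.Nonempty)
    (hsgn : ∀ z ∈ A, dY J Φ z.1 = 0 → 0 < dR Φ z.1) : False := by
  have : LocallyCompactSpace K' := J.locallyCompactSpace
  have : LocallyCompactSpace Y := ChartedSpace.locallyCompactSpace K' Y
  have : CompactSpace P := isCompact_iff_compactSpace.1 hP
  obtain ⟨O', hO', hOA⟩ := isOpen_induced_iff.1 hA.isOpen
  set P₁ : Set (ℝ × Y) := Subtype.val '' A with hP₁
  have hP₁c : IsCompact P₁ := hA.isClosed.isCompact.image continuous_subtype_val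
  have hP₁sub : P₁ ⊆ P := by
    rintro _ ⟨z, -, rfl⟩; exact z.2
  have hmem : ∀ p, p ∈ P₁ ↔ p ∈ O ∩ O' ∧ Φ p = c := by
    intro p
    constructor
    · rintro ⟨z, hz, rfl⟩
      have h1 := (hPO _).1 z.2
      have h2 : z ∈ Subtype.val ⁻¹' O' := by rw [hOA]; exact hz
      exact ⟨⟨h1.1, h2⟩, h1.2⟩
    · rintro ⟨⟨h1, h2⟩, h3⟩
      have h4 : p ∈ P := (hPO p).2 ⟨h1, h3⟩
      refine ⟨⟨p, h4⟩, ?_, rfl⟩
      rw [← hOA]; exact h2
  have hsgn' : ∀ q ∈ P₁, dY J Φ q = 0 → 0 < dR Φ q := by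
    rintro _ ⟨z, hz, rfl⟩ h; exact hsgn z hz h
  refine no_piece (v := fun p => Φ p - c) (hΦ.continuous.sub continuous_const) hP₁c
    (hne.image _) (hO.inter hO') (fun p => by rw [hmem p, sub_eq_zero]) (y₀ := y₀)
    (fun s hs => hy₀ s (hP₁sub hs)) ?_ ?_
  · intro q hq hmax
    have h0 : dY J Φ q = 0 := by
      by_contra hne0
      obtain ⟨W, hWs, hWo, hqW⟩ := mem_nhds_iff.1 hmax
      have h1 := open_heights hΦ ((hO.inter hO').inter hWo)
        (show q ∈ (O ∩ O') ∩ W from ⟨((hmem q).1 hq).1, hqW⟩) hne0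
      have h2 : ∀ᶠ s in 𝓝[>] q.1, ∃ y, Φ (s, y) = Φ q ∧ (s, y) ∈ (O ∩ O') ∩ W :=
        nhdsWithin_le_nhds h1
      obtain ⟨s, ⟨y, hy1, hy2⟩, hs⟩ := (h2.and self_mem_nhdsWithin).exists
      have hs' : q.1 < s := hs
      have h3 : (s, y) ∈ P₁ := (hmem _).2 ⟨hy2.1, hy1.trans ((hmem q).1 hq).2⟩
      have h4 : s ≤ q.1 := hWs hy2.2 h3
      linarith
    have h1 := (slope_pos (hasDerivAt_dR hΦ q) (hsgn' q hq h0)).1
    filter_upwards [h1] with s hs
    have h2 : Φ (q.1, q.2) = c := ((hmem q).1 hq).2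
    show 0 < Φ (s, q.2) - c
    rw [h2] at hs
    linarith
  · intro q hq hmin
    have h0 : dY J Φ q = 0 := by
      by_contra hne0
      obtain ⟨W, hWs, hWo, hqW⟩ := mem_nhds_iff.1 hmin
      have h1 := open_heights hΦ ((hO.inter hO').inter hWo)
        (show q ∈ (O ∩ O') ∩ W from ⟨((hmem q).1 hq).1, hqW⟩) hne0
      have h2 : ∀ᶠ s in 𝓝[<] q.1, ∃ y, Φ (s, y) = Φ q ∧ (s, y) ∈ (O ∩ O') ∩ W :=
        nhdsWithin_le_nhds h1
      obtain ⟨s, ⟨y, hy1, hy2⟩, hs⟩ := (h2.and self_mem_nhdsWithin).exists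
      have hs' : s < q.1 := hs
      have h3 : (s, y) ∈ P₁ := (hmem _).2 ⟨hy2.1, hy1.trans ((hmem q).1 hq).2⟩
      have h4 : q.1 ≤ s := hWs hy2.2 h3
      linarith
    have h1 := (slope_pos (hasDerivAt_dR hΦ q) (hsgn' q hq h0)).2
    filter_upwards [h1] with s hs
    have h2 : Φ (q.1, q.2) = c := ((hmem q).1 hq).2
    show Φ (s, q.2) - c < 0
    rw [h2] at hs
    linarith

end Pool.Agent.J4.H62.We
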