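import Mathlib
import Pool.Agent.J4.H62.We.Core

/-! Continuation: local data near a level of the invariant function, openness of the set of
points where the integral along the orbit tends to infinity. -/

open Set Filter MeasureTheory
open scoped Topology

noncomputable section

set_option linter.unusedSectionVars false
set_option linter.unusedVariables false

namespace Pool.Agent.J4.H62.We

variable {S : Type*} [TopologicalSpace S]
variable {φ : S → ℝ → S} {f h : S → ℝ}

/-- local data near the level `a` of `f` -/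
structure Loc (φ : S → ℝ → S) (f h : S → ℝ) (a : ℝ) (V Q : Set S) (δ ε : ℝ) : Prop where
  Vopen : IsOpen V
  Qclosed : IsClosed Q
  cover : ∀ z, |f z - a| ≤ ε → z ∉ Q → z ∈ V
  Qfix : ∀ q ∈ Q, ∃ t, φ q t ≠ q
  δpos : 0 < δ
  εpos : 0 < ε
  big : ∀ z ∈ V, δ ≤ |h z|
  same : ∀ z ∈ V, ∀ t, φ z t ∈ V → 0 < h z * h (φ z t)

/-- the sign condition near the fixed points of the level `a` -/
def SgnAt (φ : S → ℝ → S) (f h : S → ℝ) (a : ℝ) : Prop :=
  ∃ V : Set S, IsOpen V ∧ (∀ z, f z = a → (∀ t, φ z t = z) → z ∈ V) ∧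
    ∃ ε > 0, ∀ z ∈ V, |f z - a| < ε → ∀ t, φ z t ∈ V → 0 < h z * h (φ z t)

lemma exists_lower_bound {K : Set S} (hK : IsCompact K) {g : S → ℝ} (hg : Continuous g)
    (hpos : ∀ z ∈ K, 0 < g z) : ∃ δ > 0, ∀ z ∈ K, δ < g z := by
  rcases K.eq_empty_or_nonempty with he | hne
  · exact ⟨1, one_pos, by simp [he]⟩
  · obtain ⟨z₀, hz₀, hmin⟩ := hK.exists_isMinOn hne hg.continuousOn
    refine ⟨g z₀ / 2, half_pos (hpos z₀ hz₀), fun z hz => ?_⟩
    have h1 : g z₀ ≤ g z := hmin hz
    have h2 := hpos z₀ hz₀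
    linarith

lemma fixed_closed [T2Space S] (H : Flw φ f) : IsClosed {z | ∀ t, φ z t = z} := by
  have h1 : {z | ∀ t, φ z t = z} = ⋂ t, {z | φ z t = z} := by ext; simp
  rw [h1]
  exact isClosed_iInter fun t => isClosed_eq (H.cont_right t) continuous_id

lemma exists_loc [CompactSpace S] [T2Space S] (H : Flw φ f) (hh : Continuous h) {a : ℝ}
    (h3 : SgnAt φ f h a) : ∃ V Q δ ε, Loc φ f h a V Q δ ε := by
  obtain ⟨V₀, hV₀, hV₀F, ε₀, hε₀, hs⟩ := h3
  have hF : IsClosed {z | ∀ t, φ z t = z} := fixed_closed H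
  have hFa : IsCompact ({z | ∀ t, φ z t = z} ∩ {z | f z = a}) :=
    (hF.inter (isClosed_eq H.fcont continuous_const)).isCompact
  obtain ⟨δ, hδ, hδb⟩ := exists_lower_bound hFa hh.abs (by
    rintro z ⟨hz, hza⟩
    have h1 := hs z (hV₀F z hza hz) (by
      have : f z = a := hza
      rw [this]; simpa using hε₀) 0 (by rw [H.zero]; exact hV₀F z hza hz)
    rw [H.zero] at h1
    apply abs_pos.2
    intro h0
    rw [h0] at h1
    simp at h1)
  set V : Set S := V₀ ∩ {z | |f z - a| < ε₀} ∩ {z | δ < |h z|} with hV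
  have hVo : IsOpen V := (hV₀.inter (isOpen_lt (H.fcont.sub continuous_const).abs
    continuous_const)).inter (isOpen_lt continuous_const hh.abs)
  obtain ⟨ε₁, hε₁, hεb⟩ := exists_lower_bound (K := {z | ∀ t, φ z t = z} \ V)
    (g := fun z => |f z - a|) (hF.isCompact.diff hVo) (H.fcont.sub continuous_const).abs (by
      rintro z ⟨hz, hzV⟩
      apply abs_pos.2
      intro h0
      apply hzV
      have hza : f z = a := by linarith
      exact ⟨⟨hV₀F z hza hz, by show |f z - a| < ε₀; rw [h0, abs_zero]; exact hε₀⟩,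
        hδb z ⟨hz, hza⟩⟩)
  refine ⟨V, {z | |f z - a| ≤ ε₁} \ V, δ, ε₁, hVo, ?_, ?_, ?_, hδ, hε₁, ?_, ?_⟩
  · exact (isClosed_le (H.fcont.sub continuous_const).abs continuous_const).sdiff hVo
  · intro z hz hzQ
    by_contra hcon
    exact hzQ ⟨hz, hcon⟩
  · rintro q ⟨hq, hqV⟩
    by_contra hcon
    push Not at hcon
    have h1 := hεb q ⟨hcon, hqV⟩
    have h2 : |f q - a| ≤ ε₁ := hq
    linarith
  · rintro z ⟨-, hz⟩
    exact le_of_lt hz
  · rintro z ⟨⟨hz, hze⟩, -⟩ t ht
    exact hs z hz hze t ht.1.1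

lemma min_period [T2Space S] (H : Flw φ f) {z : S} (hz : ∃ t, φ z t ≠ z)
    (hper : ∃ T, 0 < T ∧ φ z T = z) :
    ∃ T, 0 < T ∧ φ z T = z ∧ ∀ t, 0 < t → t < T → φ z t ≠ z := by
  obtain ⟨t₀, ht₀, hs⟩ := H.short z hz
  have hs' := hs.self_of_nhds
  set P : Set ℝ := {t | t₀ ≤ t ∧ φ z t = z} with hP
  have hPc : IsClosed P := (isClosed_le continuous_const continuous_id).inter
    (isClosed_eq (H.cont_left z) continuous_const)
  have hPne : P.Nonempty := by
    obtain ⟨T, hT, hTz⟩ := hper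
    refine ⟨T, ?_, hTz⟩
    by_contra hcon
    push Not at hcon
    exact hs' T hT hcon.le hTz
  have hPb : BddBelow P := ⟨t₀, fun t ht => ht.1⟩
  have hmem := hPc.csInf_mem hPne hPb
  refine ⟨sInf P, lt_of_lt_of_le ht₀ hmem.1, hmem.2, fun t ht htT htz => ?_⟩
  have h1 : t ∈ P := by
    refine ⟨?_, htz⟩
    by_contra hcon
    push Not at hcon
    exact hs' t ht hcon.le htz
  exact absurd (csInf_le hPb h1) (not_le.2 htT)

lemma In_fixed (H : Flw φ f) {z : S} (hz : ∀ t, φ z t = z) (T : ℝ) : In φ h z T = T * h z := by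
  unfold In
  simp_rw [hz]
  rw [intervalIntegral.integral_const, sub_zero, smul_eq_mul]

/-- the estimate for points whose orbit has a positive sign near the fixed points -/
lemma In_lower' (H : Flw φ f) (hh : Continuous h) {a : ℝ} {V Q : Set S} {δ ε : ℝ}
    (hL : Loc φ f h a V Q δ ε) {M B : ℝ} (hM : ∀ z, |h z| ≤ M) (hB0 : 0 ≤ B)
    (hB : ∀ (z : S) (T : ℝ), 0 < T → (∀ t, 0 < t → t < T → φ z t ≠ z) →
      volume (Icc 0 T ∩ {t | φ z t ∈ Q}) ≤ ENNReal.ofReal B)
    {z : S} (hz : |f z - a| ≤ ε) {t₁ : ℝ} (ht₁ : φ z t₁ ∈ V) (hpos : 0 < h (φ z t₁))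
    {T : ℝ} (hT : 0 < T) (hTz : ∀ t, 0 < t → t < T → φ z t ≠ z) :
    δ * T - (δ + M) * B ≤ In φ h z T := by
  refine In_lower H hh hL.Qclosed hL.δpos hM hT hB0 (hB z T hT hTz) fun t ht => ?_
  have h1 : φ z t ∈ V := hL.cover _ (by rw [H.finv]; exact hz) ht
  have h2 := hL.same _ ht₁ (t - t₁) (by rw [← H.add, add_sub_cancel]; exact h1)
  rw [← H.add, add_sub_cancel] at h2
  have h3 : 0 < h (φ z t) := by
    by_contra hcon
    push Not at hcon
    nlinarith
  have h4 := hL.big _ h1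
  rwa [abs_of_pos h3] at h4

lemma tendsto_lin {δ b : ℝ} (hδ : 0 < δ) {F : ℝ → ℝ} (hF : ∀ T, 0 < T → δ * T - b ≤ F T) :
    Tendsto F atTop atTop := by
  have h1 : Tendsto (fun T : ℝ => δ * T - b) atTop atTop :=
    tendsto_atTop_add_const_right _ _ (tendsto_id.const_mul_atTop hδ)
  refine tendsto_atTop_mono' _ ?_ h1
  filter_upwards [eventually_gt_atTop 0] with T hT
  exact hF T hT

/-- points whose orbit has a positive sign near the fixed points, without periods or fixed -/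
lemma tendsto_of_sign [T2Space S] (H : Flw φ f) (hh : Continuous h) {a : ℝ} {V Q : Set S} {δ ε : ℝ}
    (hL : Loc φ f h a V Q δ ε) {M B : ℝ} (hM : ∀ z, |h z| ≤ M) (hB0 : 0 ≤ B)
    (hB : ∀ (z : S) (T : ℝ), 0 < T → (∀ t, 0 < t → t < T → φ z t ≠ z) →
      volume (Icc 0 T ∩ {t | φ z t ∈ Q}) ≤ ENNReal.ofReal B)
    {z : S} (hz : |f z - a| ≤ ε) {t₁ : ℝ} (ht₁ : φ z t₁ ∈ V) (hpos : 0 < h (φ z t₁))
    (hnp : (∀ t, φ z t = z) ∨ ∀ t, 0 < t → φ z t ≠ z) : Tendsto (In φ h z) atTop atTop := by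
  rcases hnp with hfix | hnp
  · rw [hfix] at hpos
    refine tendsto_lin (δ := h z) (b := 0) hpos fun T _ => ?_
    rw [In_fixed H hfix]
    linarith
  · exact tendsto_lin hL.δpos fun T hT =>
      In_lower' H hh hL hM hB0 hB hz ht₁ hpos hT fun t ht _ => hnp t ht

lemma exists_visit {V Q : Set S} {B : ℝ} (hB0 : 0 ≤ B)
    (hB : ∀ (z : S) (T : ℝ), 0 < T → (∀ t, 0 < t → t < T → φ z t ≠ z) →
      volume (Icc 0 T ∩ {t | φ z t ∈ Q}) ≤ ENNReal.ofReal B)
    {z : S} (hcov : ∀ t, φ z t ∉ Q → φ z t ∈ V)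
    (hnp : ∀ t, 0 < t → φ z t ≠ z) : ∃ t, φ z t ∈ V := by
  by_contra hcon
  push Not at hcon
  have h1 := hB z (B + 1) (by linarith) fun t ht _ => hnp t ht
  have h2 : Icc 0 (B + 1) ∩ {t | φ z t ∈ Q} = Icc 0 (B + 1) := by
    apply inter_eq_left.2
    intro t _
    by_contra hq
    exact hcon t (hcov t hq)
  rw [h2, Real.volume_Icc, sub_zero] at h1
  have h3 := (ENNReal.ofReal_le_ofReal_iff hB0).1 h1
  linarith

lemma In_neg (z : S) (T : ℝ) : In φ (fun z => -h z) z T = - In φ h z T := by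
  unfold In
  rw [intervalIntegral.integral_neg]

lemma SgnAt.neg {a : ℝ} (h3 : SgnAt φ f h a) : SgnAt φ f (fun z => -h z) a := by
  obtain ⟨V, h1, h2, ε, hε, h4⟩ := h3
  refine ⟨V, h1, h2, ε, hε, fun z hz hze t ht => ?_⟩
  simpa using h4 z hz hze t ht

/-- **Dichotomy.** -/
theorem dichotomy [CompactSpace S] [T2Space S] (H : Flw φ f) (hh : Continuous h)
    (h1 : ∀ z T, 0 < T → φ z T = z → (∃ t, φ z t ≠ z) → In φ h z T ≠ 0)
    (h3 : ∀ a, SgnAt φ f h a) (z : S) :
    Tendsto (In φ h z) atTop atTop ∨ Tendsto (In φ h z) atTop atBot := by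
  have hneg : ∀ z, Tendsto (In φ (fun z => -h z) z) atTop atTop → Tendsto (In φ h z) atTop atBot := by
    intro z hz
    have h2 : In φ h z = fun T => - In φ (fun z => -h z) z T := by
      funext T; rw [In_neg, neg_neg]
    rw [h2]
    exact tendsto_neg_atTop_atBot.comp hz
  obtain ⟨V, Q, δ, ε, hL⟩ := exists_loc H hh (h3 (f z))
  obtain ⟨M, hM⟩ : ∃ M, ∀ z, |h z| ≤ M := by
    obtain ⟨M, hM⟩ := (isCompact_range (hh.abs)).bddAbove
    exact ⟨M, fun z => hM (mem_range_self z)⟩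
  by_cases hfix : ∀ t, φ z t = z
  · have hV : z ∈ V := by
      apply hL.cover _ (by simpa using hL.εpos.le)
      intro hq
      obtain ⟨t, ht⟩ := hL.Qfix z hq
      exact ht (hfix t)
    have h4 := hL.big z hV
    rcases lt_or_ge 0 (h z) with h5 | h5
    · left
      refine tendsto_lin (δ := h z) (b := 0) h5 fun T _ => ?_
      rw [In_fixed H hfix]; linarith
    · right
      apply hneg
      have h6 : h z ≠ 0 := by
        intro h0; rw [h0, abs_zero] at h4; linarith [hL.δpos]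
      have h7 : 0 < - h z := by
        rcases lt_or_eq_of_le h5 with h8 | h8
        · linarith
        · exact absurd h8 h6
      refine tendsto_lin (δ := - h z) (b := 0) h7 fun T _ => ?_
      rw [In_fixed (h := fun z => - h z) H hfix]; linarith
  by_cases hper : ∃ T, 0 < T ∧ φ z T = z
  · obtain ⟨T, hT, hTz⟩ := hper
    have h4 := h1 z T hT hTz (by push Not at hfix; exact hfix)
    rcases lt_or_gt_of_ne h4 with h5 | h5
    · right
      apply hneg
      apply tendsto_of_periodic (h := fun z => -h z) H hh.neg hT hTz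
      rw [In_neg]
      linarith
    · left
      exact tendsto_of_periodic H hh hT hTz h5
  · have hnp : ∀ t, 0 < t → φ z t ≠ z := fun t ht hz => hper ⟨t, ht, hz⟩
    obtain ⟨B, hB0, hB⟩ := bounded_time H hL.Qclosed.isCompact hL.Qfix
    have hz0 : |f z - f z| ≤ ε := by simpa using hL.εpos.le
    obtain ⟨t₁, ht₁⟩ := exists_visit hB0 hB
      (fun t ht => hL.cover _ (by rw [H.finv]; exact hz0) ht) hnp
    rcases lt_or_ge 0 (h (φ z t₁)) with h5 | h5
    · left
      exact tendsto_of_sign H hh hL hM hB0 hB hz0 ht₁ h5 (Or.inr hnp)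
    · -- negative sign: use the data for `-h` with the set `V`
      right
      apply hneg
      have hLn : Loc φ f (fun z => -h z) (f z) V Q δ ε :=
        ⟨hL.Vopen, hL.Qclosed, hL.cover, hL.Qfix, hL.δpos, hL.εpos,
          fun z hz => by rw [abs_neg]; exact hL.big z hz,
          fun z hz t ht => by simpa using hL.same z hz t ht⟩
      have h6 : 0 < - h (φ z t₁) := by
        have h7 := hL.big _ ht₁
        rcases lt_or_eq_of_le h5 with h8 | h8
        · linarith
        · rw [h8, abs_zero] at h7; linarith [hL.δpos]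
      exact tendsto_of_sign (h := fun z => -h z) H hh.neg hLn (M := M) (by simpa using hM) hB0 hB
        hz0 ht₁ h6 (Or.inr hnp)

/-- **Openness.** -/
theorem open_plus [CompactSpace S] [T2Space S] (H : Flw φ f) (hh : Continuous h)
    (h1 : ∀ z T, 0 < T → φ z T = z → (∃ t, φ z t ≠ z) → In φ h z T ≠ 0)
    (h3 : ∀ a, SgnAt φ f h a) : IsOpen {z | Tendsto (In φ h z) atTop atTop} := by
  rw [isOpen_iff_mem_nhds]
  intro z₀ hz₀
  have hz₀' : Tendsto (In φ h z₀) atTop atTop := hz₀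
  obtain ⟨M, hM⟩ : ∃ M, ∀ z, |h z| ≤ M := by
    obtain ⟨M, hM⟩ := (isCompact_range (hh.abs)).bddAbove
    exact ⟨M, fun z => hM (mem_range_self z)⟩
  have hM0 : 0 ≤ M := (abs_nonneg _).trans (hM z₀)
  have hIc := In_cont H hh
  by_cases hcaseA : (∃ t, φ z₀ t ≠ z₀) ∧ ∃ T, 0 < T ∧ φ z₀ T = z₀
  · -- a periodic orbit
    obtain ⟨hnf, T₀, hT₀, hT₀z⟩ := hcaseA
    have hI : 0 < In φ h z₀ T₀ := by
      rcases lt_or_gt_of_ne (h1 z₀ T₀ hT₀ hT₀z hnf) with h5 | h5
      · exfalso
        have h6 : Tendsto (In φ (fun z => -h z) z₀) atTop atTop := by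
          apply tendsto_of_periodic (h := fun z => -h z) H hh.neg hT₀ hT₀z
          rw [In_neg]; linarith
        obtain ⟨T, hTa, hTb⟩ := ((h6.eventually_gt_atTop 0).and (hz₀'.eventually_gt_atTop 0)).exists
        rw [In_neg] at hTa
        linarith
      · exact h5
    have hev : ∀ᶠ p : S × ℝ in 𝓝 (z₀, T₀), 0 < In φ h p.1 p.2 :=
      hIc.continuousAt.eventually (lt_mem_nhds hI)
    rw [nhds_prod_eq, eventually_prod_iff] at hev
    obtain ⟨pa, ha, pb, hb, hab⟩ := hev
    obtain ⟨ε, hε, hεb⟩ := Metric.eventually_nhds_iff.1 hb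
    have hbox := H.box z₀ hnf (min ε T₀) (lt_min hε hT₀)
    have hcont : ContinuousAt (fun z => (φ z T₀, z)) z₀ :=
      ((H.cont_right T₀).continuousAt).prodMk continuousAt_id
    have hbox' : ∀ᶠ z in 𝓝 z₀, f (φ z T₀) = f z → ∃ s, |s| < min ε T₀ ∧ z = φ (φ z T₀) s := by
      have h5 : Tendsto (fun z => (φ z T₀, z)) (𝓝 z₀) (𝓝 (z₀, z₀)) := by
        have := hcont.tendsto
        rwa [hT₀z] at this
      exact h5.eventually hbox
    filter_upwards [ha, hbox'] with z hz hzb
    obtain ⟨s, hs, hsz⟩ := hzb (H.finv _ _)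
    rw [← H.add] at hsz
    have hs1 : |s| < ε := hs.trans_le (min_le_left _ _)
    have hs2 : |s| < T₀ := hs.trans_le (min_le_right _ _)
    refine tendsto_of_periodic H hh (T := T₀ + s) (by linarith [(abs_lt.1 hs2).1]) hsz.symm ?_
    exact hab hz (hεb (by rw [Real.dist_eq, add_sub_cancel_left]; exact hs1))
  · -- a fixed point or an orbit without periods
    have hnp₀ : (∀ t, φ z₀ t = z₀) ∨ ∀ t, 0 < t → φ z₀ t ≠ z₀ := by
      by_contra hcon
      push Not at hcon
      exact hcaseA ⟨hcon.1, hcon.2⟩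
    obtain ⟨V, Q, δ, ε, hL⟩ := exists_loc H hh (h3 (f z₀))
    obtain ⟨B, hB0, hB⟩ := bounded_time H hL.Qclosed.isCompact hL.Qfix
    have hz0 : |f z₀ - f z₀| ≤ ε := by simpa using hL.εpos.le
    have hδ := hL.δpos
    obtain ⟨t₁, ht₁, hpos, ht₁f⟩ : ∃ t₁, φ z₀ t₁ ∈ V ∧ 0 < h (φ z₀ t₁) ∧
        ((∀ t, φ z₀ t = z₀) → t₁ = 0) := by
      rcases hnp₀ with hfix | hnp
      · refine ⟨0, ?_, ?_, fun _ => rfl⟩
        · rw [H.zero]
          apply hL.cover _ hz0
          intro hq
          obtain ⟨t, ht⟩ := hL.Qfix _ hq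
          exact ht (hfix t)
        · rw [H.zero]
          by_contra hcon
          push Not at hcon
          obtain ⟨T, hTa, hTb⟩ := ((hz₀'.eventually_gt_atTop 0).and (eventually_gt_atTop 0)).exists
          rw [In_fixed H hfix] at hTa
          nlinarith
      · obtain ⟨t₁, ht₁⟩ := exists_visit hB0 hB
          (fun t ht => hL.cover _ (by rw [H.finv]; exact hz0) ht) hnp
        refine ⟨t₁, ht₁, ?_, fun hfix => absurd (hfix 1) (hnp 1 one_pos)⟩
        by_contra hcon
        push Not at hcon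
        have h6 : 0 < - h (φ z₀ t₁) := by
          have h7 := hL.big _ ht₁
          rcases lt_or_eq_of_le hcon with h8 | h8
          · linarith
          · rw [h8, abs_zero] at h7; linarith
        have hLn : Loc φ f (fun z => -h z) (f z₀) V Q δ ε :=
          ⟨hL.Vopen, hL.Qclosed, hL.cover, hL.Qfix, hL.δpos, hL.εpos,
            fun z hz => by rw [abs_neg]; exact hL.big z hz,
            fun z hz t ht => by simpa using hL.same z hz t ht⟩
        have h9 := tendsto_of_sign (h := fun z => -h z) H hh.neg hLn (M := M) (by simpa using hM)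
          hB0 hB hz0 ht₁ h6 (Or.inr hnp)
        obtain ⟨T, hTa, hTb⟩ := ((h9.eventually_gt_atTop 0).and (hz₀'.eventually_gt_atTop 0)).exists
        rw [In_neg] at hTa
        linarith
    set Ts : ℝ := (δ + M) * B / δ + 1 with hTs
    have hTspos : 0 < Ts := by positivity
    have hTsb : ∀ T, Ts ≤ T → 0 < δ * T - (δ + M) * B := by
      intro T hT
      have h5 : δ * Ts = (δ + M) * B + δ := by
        rw [hTs]; field_simp
      have h6 := mul_le_mul_of_nonneg_left hT hδ.le
      linarith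
    -- the neighbourhood
    have e1 : ∀ᶠ z in 𝓝 z₀, φ z t₁ ∈ V ∧ 0 < h (φ z t₁) := by
      have h5 : IsOpen (V ∩ {z | 0 < h z}) := hL.Vopen.inter (isOpen_lt continuous_const hh)
      exact (H.cont_right t₁).continuousAt.eventually (h5.mem_nhds ⟨ht₁, hpos⟩)
    have e2 : ∀ᶠ z in 𝓝 z₀, |f z - f z₀| ≤ ε := by
      have h5 : IsOpen {z | |f z - f z₀| < ε} :=
        isOpen_lt (H.fcont.sub continuous_const).abs continuous_const
      filter_upwards [h5.mem_nhds (by simpa using hL.εpos)] with z hz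
      exact le_of_lt hz
    have e3 : ∀ᶠ z in 𝓝 z₀, (∃ t, φ z t ≠ z) → ∀ T, 0 < T → T ≤ Ts → φ z T = z →
        0 < In φ h z T := by
      rcases hnp₀ with hfix | hnp
      · -- near a fixed point
        have h0 := ht₁f hfix
        rw [h0, H.zero] at hpos
        have h5 : IsOpen {p : S × ℝ | 0 < h (φ p.1 p.2)} :=
          isOpen_lt continuous_const (hh.comp H.cont)
        have h6 : ({z₀} : Set S) ×ˢ Icc 0 Ts ⊆ {p : S × ℝ | 0 < h (φ p.1 p.2)} := by
          rintro ⟨z, t⟩ ⟨hz, -⟩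
          have hz' : z = z₀ := hz
          show 0 < h (φ z t)
          rw [hz', hfix]; exact hpos
        obtain ⟨u, v, hu, -, hzu, hv, huv⟩ := generalized_tube_lemma isCompact_singleton
          isCompact_Icc h5 h6
        filter_upwards [hu.mem_nhds (hzu rfl)] with z hz _ T hT hTs' _
        unfold In
        apply intervalIntegral.intervalIntegral_pos_of_pos_on
        · exact (hh.comp (H.cont_left z)).intervalIntegrable _ _
        · intro t ht
          exact huv (show (z, t) ∈ u ×ˢ v from ⟨hz, hv ⟨ht.1.le, ht.2.le.trans hTs'⟩⟩)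
        · exact hT
      · -- near a point without periods
        obtain ⟨t₀, ht₀, hshort⟩ := H.short z₀ ⟨1, hnp 1 one_pos⟩
        have h5 : IsOpen {p : S × ℝ | φ p.1 p.2 ≠ p.1} :=
          (isClosed_eq H.cont continuous_fst).isOpen_compl
        have h6 : ({z₀} : Set S) ×ˢ Icc t₀ Ts ⊆ {p : S × ℝ | φ p.1 p.2 ≠ p.1} := by
          rintro ⟨z, t⟩ ⟨hz, ht⟩
          have hz' : z = z₀ := hz
          show φ z t ≠ z
          rw [hz']; exact hnp t (ht₀.trans_le ht.1)
        obtain ⟨u, v, hu, -, hzu, hv, huv⟩ := generalized_tube_lemma isCompact_singleton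
          isCompact_Icc h5 h6
        filter_upwards [hu.mem_nhds (hzu rfl), hshort] with z hz hzs _ T hT hTs' hTz
        exfalso
        rcases le_or_gt T t₀ with h7 | h7
        · exact hzs T hT h7 hTz
        · exact huv (show (z, T) ∈ u ×ˢ v from ⟨hz, hv ⟨h7.le, hTs'⟩⟩) hTz
    filter_upwards [e1, e2, e3] with z hz1 hz2 hz3
    show Tendsto (In φ h z) atTop atTop
    by_cases hfix : ∀ t, φ z t = z
    · exact tendsto_of_sign H hh hL hM hB0 hB hz2 hz1.1 hz1.2 (Or.inl hfix)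
    have hnf : ∃ t, φ z t ≠ z := by push Not at hfix; exact hfix
    by_cases hper : ∃ T, 0 < T ∧ φ z T = z
    · obtain ⟨T, hT, hTz, hmin⟩ := min_period H hnf hper
      rcases le_or_gt T Ts with h5 | h5
      · exact tendsto_of_periodic H hh hT hTz (hz3 hnf T hT h5 hTz)
      · have h6 := In_lower' H hh hL hM hB0 hB hz2 hz1.1 hz1.2 hT hmin
        exact tendsto_of_periodic H hh hT hTz ((hTsb T h5.le).trans_le h6)
    · exact tendsto_of_sign H hh hL hM hB0 hB hz2 hz1.1 hz1.2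
        (Or.inr fun t ht hz => hper ⟨t, ht, hz⟩)

end Pool.Agent.J4.H62.We
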