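import Mathlib
import Pool.Agent.J4.H62.We.Drive
import Pool.Agent.J4.H62.We.Core2
import Pool.Agent.Helper186.ParamInt
import Pool.Agent.Helper186.Variation

/-! A primitive `α` of the two-form near the level set which is positive (or negative) on the
Hamiltonian field has a sign near the fixed points of the fibrewise flow, which is constant along
each orbit. -/

open scoped Topology ContDiff Manifold
open Set Filter Pool.Agent.Helper186 Pool.Agent.J4.H27.Wn

noncomputable section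

namespace Pool.Agent.J4.H62.We

set_option linter.unusedSectionVars false

universe u v

variable {E : Type u} [NormedAddCommGroup E] [NormedSpace ℝ E] [FiniteDimensional ℝ E]
  {K : Type*} [TopologicalSpace K] {I : ModelWithCorners ℝ E K} [I.Boundaryless]
  {N : Type*} [TopologicalSpace N] [ChartedSpace K N] [IsManifold I ∞ N]
  {w : N → E →L[ℝ] E →L[ℝ] ℝ}
  {E' : Type v} [NormedAddCommGroup E'] [NormedSpace ℝ E'] [FiniteDimensional ℝ E']
  {K' : Type*} [TopologicalSpace K'] {J : ModelWithCorners ℝ E' K'} [J.Boundaryless]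
  {Y : Type*} [TopologicalSpace Y] [ChartedSpace K' Y] [IsManifold J ∞ Y]
  {w' : Y → E' →L[ℝ] E' →L[ℝ] ℝ}

/-- a real function with derivative at most `-κ < 0` is not bounded -/
lemma not_bounded_of_deriv {D d : ℝ → ℝ} (hD : ∀ u, HasDerivAt D (d u) u) {κ B : ℝ} (hκ : 0 < κ)
    (hd : ∀ u, d u ≤ -κ) (hB : ∀ u, |D u| ≤ B) : False := by
  have hB0 : 0 ≤ B := (abs_nonneg _).trans (hB 0)
  set u : ℝ := (2 * B + 1) / κ with hu
  have hu0 : 0 < u := by positivity
  have h1 := (convex_Icc 0 u).image_sub_le_mul_sub_of_deriv_le (f := D) (C := -κ)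
    (fun x _ => (hD x).continuousAt.continuousWithinAt)
    (fun x _ => (hD x).differentiableAt.differentiableWithinAt)
    (fun x _ => by rw [(hD x).deriv]; exact hd x)
    0 (left_mem_Icc.2 hu0.le) u (right_mem_Icc.2 hu0.le) hu0.le
  have h2 := abs_le.1 (hB u)
  have h3 := abs_le.1 (hB 0)
  have h4 : κ * u = 2 * B + 1 := by rw [hu]; field_simp
  nlinarith

lemma mfd (g : ℝ → ℝ) (s : ℝ) :
    (show ℝ →L[ℝ] ℝ from mfderiv 𝓘(ℝ, ℝ) 𝓘(ℝ, ℝ) g s) 1 = deriv g s := by
  have h1 : (show ℝ →L[ℝ] ℝ from mfderiv 𝓘(ℝ, ℝ) 𝓘(ℝ, ℝ) g s) = fderiv ℝ g s :=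
    mfderiv_eq_fderiv
  rw [h1]
  exact fderiv_apply_one_eq_deriv

/-- the component of the form on the base flow -/
def cA (α : (p : N × Y) → TangentSpace (I.prod J) p →L[ℝ] ℝ) (V : (x : N) → TangentSpace I x)
    (p : N × Y) : ℝ := α p ((V p.1 : E), (0 : E'))

/-- the component of the form on the fibrewise flow -/
def cB (α : (p : N × Y) → TangentSpace (I.prod J) p →L[ℝ] ℝ) (F : N → ℝ) (X : ℝ × Y → E')
    (p : N × Y) : ℝ := α p ((0 : E), (X (F p.1, p.2) : E'))

lemma sm_cA {α : (p : N × Y) → TangentSpace (I.prod J) p →L[ℝ] ℝ} (hα : SmoothForm α)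
    {V : (x : N) → TangentSpace I x}
    (hV : ContMDiff I I.tangent ∞ (fun x => (⟨x, V x⟩ : TangentBundle I N))) :
    Sm (I.prod J) (cA α V) := by
  have : IsManifold I 1 N := IsManifold.of_le (n := ∞) (by simp)
  have : IsManifold J 1 Y := IsManifold.of_le (n := ∞) (by simp)
  have h1 : ContMDiff (I.prod J) I.tangent ∞
      (fun p : N × Y => (⟨p.1, V p.1⟩ : TangentBundle I N)) := hV.comp contMDiff_fst
  have h2 : ContMDiff (I.prod J) J.tangent ∞
      (fun p : N × Y => (⟨p.2, (0 : E')⟩ : TangentBundle J Y)) :=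
    (Bundle.contMDiff_zeroSection ℝ (TangentSpace J : Y → Type _)).comp contMDiff_snd
  have h3 : ContMDiff (I.prod J) (I.prod J).tangent ∞
      (fun p : N × Y => (⟨p, ((V p.1 : E), (0 : E'))⟩ : TangentBundle (I.prod J) (N × Y))) :=
    (contMDiff_equivTangentBundleProd_symm (I := I) (M := N) (I' := J) (M' := Y)).comp
      (h1.prodMk h2)
  intro p
  exact hα.comp (h3 p) le_rfl

lemma sm_cB {α : (p : N × Y) → TangentSpace (I.prod J) p →L[ℝ] ℝ} (hα : SmoothForm α)
    {F : N → ℝ} (hF : Sm I F) {X : ℝ × Y → E'}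
    (hX : ContMDiff (𝓘(ℝ, ℝ).prod J) J.tangent ∞
      (fun p : ℝ × Y => (⟨p.2, X p⟩ : TangentBundle J Y))) :
    Sm (I.prod J) (cB α F X) := by
  have : IsManifold I 1 N := IsManifold.of_le (n := ∞) (by simp)
  have : IsManifold J 1 Y := IsManifold.of_le (n := ∞) (by simp)
  have h1 : ContMDiff (I.prod J) I.tangent ∞
      (fun p : N × Y => (⟨p.1, (0 : E)⟩ : TangentBundle I N)) :=
    (Bundle.contMDiff_zeroSection ℝ (TangentSpace I : N → Type _)).comp contMDiff_fst
  have h2 : ContMDiff (I.prod J) J.tangent ∞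
      (fun p : N × Y => (⟨p.2, X (F p.1, p.2)⟩ : TangentBundle J Y)) :=
    hX.comp ((hF.comp contMDiff_fst).prodMk contMDiff_snd)
  have h3 : ContMDiff (I.prod J) (I.prod J).tangent ∞
      (fun p : N × Y => (⟨p, ((0 : E), (X (F p.1, p.2) : E'))⟩ :
        TangentBundle (I.prod J) (N × Y))) :=
    (contMDiff_equivTangentBundleProd_symm (I := I) (M := N) (I' := J) (M' := Y)).comp
      (h1.prodMk h2)
  intro p
  exact hα.comp (h3 p) le_rfl

/-- **The derivative of the integral of `α` over an orbit segment of the fibrewise flow when the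
base point moves along the base flow.** -/
theorem hasDerivAt_segment {α : (p : N × Y) → TangentSpace (I.prod J) p →L[ℝ] ℝ}
    (hα : SmoothForm α) {F : N → ℝ} (hF : Sm I F) {Φ : ℝ × Y → ℝ}
    {P : Set (ℝ × Y)} {X : ℝ × Y → E'} {Fl : ℝ × Y → ℝ → ℝ × Y} (H : PFlow J w' Φ P X Fl)
    {PN : Set N} {V : (x : N) → TangentSpace I x} {θ : N → ℝ → N} (B : BFlow I w F PN V θ)
    {x : N} (hx : x ∈ PN) {z : ℝ × Y} (hzx : F x = z.1)
    (hext : ∀ u s, ∀ a b, extDer (I.prod J) α (θ x u, (Fl z s).2) a b =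
      prodForm w w' (θ x u, (Fl z s).2) a b) (t u : ℝ) :
    HasDerivAt (fun u => ∫ s in (0:ℝ)..t, cB α F X (θ x u, (Fl z s).2))
      (cA α V (θ x u, (Fl z t).2) - cA α V (θ x u, (Fl z 0).2)) u := by
  have : IsManifold I 1 N := IsManifold.of_le (n := ∞) (by simp)
  have : IsManifold J 1 Y := IsManifold.of_le (n := ∞) (by simp)
  -- the two-parameter map
  let i : ℝ × ℝ → N × Y := fun q => (θ x q.1, (Fl z q.2).2)
  have hi1 : ContMDiff (𝓘(ℝ, ℝ).prod 𝓘(ℝ, ℝ)) I ∞ (fun q : ℝ × ℝ => θ x q.1) :=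
    B.smooth.comp (contMDiff_const.prodMk contMDiff_fst)
  have hi2 : ContMDiff (𝓘(ℝ, ℝ).prod 𝓘(ℝ, ℝ)) J ∞ (fun q : ℝ × ℝ => (Fl z q.2).2) :=
    contMDiff_snd.comp (H.smooth.comp (contMDiff_const.prodMk contMDiff_snd))
  have hi : ContMDiff (𝓘(ℝ, ℝ).prod 𝓘(ℝ, ℝ)) (I.prod J) ∞ i := hi1.prodMk hi2
  have hFx : ∀ u, F (θ x u) = z.1 := fun u => by rw [(B.mem x hx u).2, hzx]
  have hFz : ∀ u s, (F (θ x u), (Fl z s).2) = Fl z s := by
    intro u s
    refine Prod.ext ?_ rfl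
    show F (θ x u) = (Fl z s).1
    rw [hFx, H.fst]
  -- derivatives of `i`
  have hdS : ∀ u s, (dS (I.prod J) i u s : E × E') = ((V (θ x u) : E), (0 : E')) := by
    intro u s
    have h1 : HasMFDerivAt 𝓘(ℝ, ℝ) J (fun _ : ℝ => (Fl z s).2) u (0 : ℝ →L[ℝ] E') :=
      hasMFDerivAt_const _ u
    have h2 := ((B.der x u).prodMk h1).mfderiv
    have h3 : (dS (I.prod J) i u s : E × E') =
      (mfderiv 𝓘(ℝ, ℝ) (I.prod J) (fun σ : ℝ => (θ x σ, (Fl z s).2)) u (1:ℝ) : E × E') := rfl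
    rw [h3]
    refine (DFunLike.congr_fun h2 (1:ℝ)).trans ?_
    refine Prod.ext ?_ rfl
    exact one_smul ℝ (V (θ x u) : E)
  have hdX : ∀ u s, (dX (I.prod J) 𝓘(ℝ, ℝ) i u s (1:ℝ) : E × E') =
      ((0 : E), (X (F (θ x u), (Fl z s).2) : E')) := by
    intro u s
    have h1 : HasMFDerivAt 𝓘(ℝ, ℝ) I (fun _ : ℝ => θ x u) s (0 : ℝ →L[ℝ] E) :=
      hasMFDerivAt_const _ s
    have h2 := (h1.prodMk (H.der z s)).mfderiv
    have h3 : (dX (I.prod J) 𝓘(ℝ, ℝ) i u s (1:ℝ) : E × E') =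
      (mfderiv 𝓘(ℝ, ℝ) (I.prod J) (fun σ : ℝ => (θ x u, (Fl z σ).2)) s (1:ℝ) : E × E') := rfl
    rw [h3, hFz]
    refine (DFunLike.congr_fun h2 (1:ℝ)).trans ?_
    refine Prod.ext rfl ?_
    exact one_smul ℝ (X (Fl z s) : E')
  -- the two functions
  have hcB : ∀ u s, (α (i (u, s)) (dX (I.prod J) 𝓘(ℝ, ℝ) i u s (1:ℝ)) : ℝ) =
      cB α F X (θ x u, (Fl z s).2) := by
    intro u s
    exact congrArg (α (i (u, s))) (hdX u s)
  have hcA : ∀ u s, (α (i (u, s)) (dS (I.prod J) i u s) : ℝ) = cA α V (θ x u, (Fl z s).2) := by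
    intro u s
    exact congrArg (α (i (u, s))) (hdS u s)
  -- the variation formula
  have hvar : ∀ u s, HasDerivAt (fun σ => cB α F X (θ x σ, (Fl z s).2))
      (deriv (fun s' => cA α V (θ x u, (Fl z s').2)) s) u := by
    intro u s
    have h1 := hasDerivAt_variation (I := I.prod J) (J := 𝓘(ℝ, ℝ)) hα isOpen_univ
      hi.contMDiffOn (mem_univ (u, s)) (1:ℝ)
    have h2 : (fun σ => (α (i (σ, s)) (dX (I.prod J) 𝓘(ℝ, ℝ) i σ s (1:ℝ)) : ℝ)) =
        fun σ => cB α F X (θ x σ, (Fl z s).2) := by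
      funext σ; exact hcB σ s
    have h3 : (fun s' => (α (i (u, s')) (dS (I.prod J) i u s') : ℝ)) =
        fun s' => cA α V (θ x u, (Fl z s').2) := by
      funext s'; exact hcA u s'
    rw [h2, h3] at h1
    refine h1.congr_deriv ?_
    have h4 : extDer (I.prod J) α (i (u, s)) (dS (I.prod J) i u s)
        (dX (I.prod J) 𝓘(ℝ, ℝ) i u s (1:ℝ)) = 0 := by
      refine (hext u s _ _).trans ?_
      have gen : ∀ (v₁ : E) (v₂ : E') (a b : E × E'), a = (v₁, (0 : E')) → b = ((0 : E), v₂) →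
          prodForm w w' (θ x u, (Fl z s).2) a b = 0 := by
        rintro v₁ v₂ _ _ rfl rfl
        rw [prodForm_apply]
        simp
      exact gen _ _ _ _ (hdS u s) (hdX u s)
    rw [h4, zero_add]
    exact mfd _ _
  -- the parametric integral
  let k : ℝ × ℝ → ℝ := fun q => cB α F X (θ x q.2, (Fl z q.1).2)
  have hk : ContMDiff (𝓘(ℝ, ℝ).prod 𝓘(ℝ, ℝ)) 𝓘(ℝ, ℝ) ∞ k := by
    have h1 : ContMDiff (𝓘(ℝ, ℝ).prod 𝓘(ℝ, ℝ)) (I.prod J) ∞
        (fun q : ℝ × ℝ => i (q.2, q.1)) := hi.comp (contMDiff_snd.prodMk contMDiff_fst)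
    exact (sm_cB hα hF H.Xs).comp h1
  have h1 := mfderiv_paramInt hk t u (1:ℝ)
  have h2 := contMDiff_paramInt hk t
  have h3 : Differentiable ℝ (fun u => ∫ s in (0:ℝ)..t, k (s, u)) :=
    (contMDiff_iff_contDiff.1 h2).differentiable (by simp)
  have h4 := (h3 u).hasDerivAt
  refine h4.congr_deriv ?_
  have h5 : deriv (fun u => ∫ s in (0:ℝ)..t, k (s, u)) u =
      ∫ s in (0:ℝ)..t, deriv (fun s' => cA α V (θ x u, (Fl z s').2)) s := by
    rw [← mfd]
    refine Eq.trans h1 ?_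
    refine intervalIntegral.integral_congr (E := ℝ) ?_
    intro s _
    refine (mfd (fun u => k (s, u)) u).trans ?_
    exact (hvar u s).deriv
  rw [h5]
  have hA : ContDiff ℝ ∞ (fun s' => cA α V (θ x u, (Fl z s').2)) := by
    have h6 : ContMDiff 𝓘(ℝ, ℝ) 𝓘(ℝ, ℝ) ∞ (fun s' => cA α V (θ x u, (Fl z s').2)) := by
      have h7 : ContMDiff 𝓘(ℝ, ℝ) (𝓘(ℝ, ℝ).prod 𝓘(ℝ, ℝ)) ∞ (fun s' : ℝ => (u, s')) :=
        contMDiff_const.prodMk contMDiff_id
      exact (sm_cA hα B.Vs).comp (hi.comp h7)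
    exact contMDiff_iff_contDiff.1 h6
  apply intervalIntegral.integral_eq_sub_of_hasDerivAt
  · intro s _
    exact (hA.differentiable (by simp) s).hasDerivAt
  · exact ((hA.continuous_deriv (by simp)).intervalIntegrable _ _)

/-- **The sign is constant along each orbit of the fibrewise flow.** -/
theorem exists_sign_nbhd {α : (p : N × Y) → TangentSpace (I.prod J) p →L[ℝ] ℝ}
    (hα : SmoothForm α) {F : N → ℝ} (hF : Sm I F) {Φ : ℝ × Y → ℝ}
    (hΦ : Sm (𝓘(ℝ, ℝ).prod J) Φ) {c : ℝ}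
    {P : Set (ℝ × Y)} {X : ℝ × Y → E'} {Fl : ℝ × Y → ℝ → ℝ × Y} (H : PFlow J w' Φ P X Fl)
    {PN : Set N} {V : (x : N) → TangentSpace I x} {θ : N → ℝ → N} (B : BFlow I w F PN V θ)
    (hS : IsCompact {p : N × Y | Hm F Φ p = c}) (hPc : ∀ z ∈ P, Φ z = c)
    (hPx : ∀ z ∈ P, ∃ x ∈ PN, F x = z.1)
    (hext : ∀ p : N × Y, Hm F Φ p = c → ∀ a b, extDer (I.prod J) α p a b =
      prodForm w w' p a b)
    (hκ : ∀ p : N × Y, Hm F Φ p = c → dR Φ (F p.1, p.2) * cA α V p + cB α F X p ≠ 0)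
    [T2Space Y] :
    ∃ V₀ : Set P, IsOpen V₀ ∧ (∀ z : P, X z.1 = 0 → z ∈ V₀) ∧
      ∀ z ∈ V₀, ∀ t, (⟨Fl z.1 t, H.mem z.1 z.2 t⟩ : P) ∈ V₀ →
        0 < dR Φ z.1 * dR Φ (Fl z.1 t) := by
  set S : Set (N × Y) := {p | Hm F Φ p = c} with hSdef
  have hpair : Continuous fun p : N × Y => ((F p.1, p.2) : ℝ × Y) :=
    (hF.continuous.comp continuous_fst).prodMk continuous_snd
  have hAc : Continuous (cA α V) := (sm_cA hα B.Vs).continuous
  have hBc : Continuous (cB α F X) := (sm_cB hα hF H.Xs).continuous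
  have hRc : Continuous (dR Φ) := (sm_dR hΦ).continuous
  let κ : N × Y → ℝ := fun p => dR Φ (F p.1, p.2) * cA α V p + cB α F X p
  have hκc : Continuous κ := ((hRc.comp hpair).mul hAc).add hBc
  obtain ⟨m, hm, hmb⟩ := exists_lower_bound hS hκc.abs (fun p hp => abs_pos.2 (hκ p hp))
  obtain ⟨Mb, hMb⟩ : ∃ Mb, ∀ p ∈ S, |cB α F X p| ≤ Mb := by
    obtain ⟨M, hM⟩ := (hS.image hBc.abs).bddAbove
    exact ⟨M, fun p hp => hM ⟨p, hp, rfl⟩⟩
  set Bad : Set (ℝ × Y) := (fun p : N × Y => ((F p.1, p.2) : ℝ × Y)) ''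
    (S ∩ {p | m / 2 ≤ |cB α F X p|}) with hBad
  have hBadc : IsClosed Bad := by
    refine (IsCompact.image ?_ hpair).isClosed
    exact hS.inter_right (isClosed_le continuous_const hBc.abs)
  have hgood : ∀ z : ℝ × Y, z ∉ Bad → ∀ p ∈ S, (F p.1, p.2) = z → |cB α F X p| < m / 2 := by
    intro z hz p hp hpz
    by_contra hcon
    push Not at hcon
    exact hz ⟨p, ⟨hp, hcon⟩, hpz⟩
  refine ⟨Subtype.val ⁻¹' Badᶜ, hBadc.isOpen_compl.preimage continuous_subtype_val, ?_, ?_⟩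
  · rintro z hz ⟨p, ⟨hp, hpb⟩, hpz⟩
    have h1 : X (F p.1, p.2) = 0 := by
      have : ((F p.1, p.2) : ℝ × Y) = z.1 := hpz
      rw [this]; exact hz
    have h2 : cB α F X p = 0 := by
      have gen : ∀ v : E', v = 0 → α p ((0 : E), v) = 0 := by
        rintro v rfl
        exact map_zero (α p)
      exact gen _ h1
    have h3 : m / 2 ≤ |cB α F X p| := hpb
    rw [h2, abs_zero] at h3
    linarith
  · rintro ⟨z, hzP⟩ hz t hzt
    have hz' : z ∉ Bad := hz
    have hzt' : Fl z t ∉ Bad := hzt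
    show 0 < dR Φ z * dR Φ (Fl z t)
    obtain ⟨x, hx, hFx⟩ := hPx z hzP
    have hFz : ∀ u s, (F (θ x u), (Fl z s).2) = Fl z s := by
      intro u s
      refine Prod.ext ?_ rfl
      show F (θ x u) = (Fl z s).1
      rw [(B.mem x hx u).2, hFx, H.fst]
    have hmem : ∀ u s, (θ x u, (Fl z s).2) ∈ S := by
      intro u s
      show Φ (F (θ x u), (Fl z s).2) = c
      rw [hFz]
      exact hPc _ (H.mem z hzP s)
    have hpc : Continuous fun q : ℝ × ℝ => ((θ x q.1, (Fl z q.2).2) : N × Y) := by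
      refine Continuous.prodMk ?_ (continuous_snd.comp ?_)
      · exact B.smooth.continuous.comp (continuous_const.prodMk continuous_fst)
      · exact H.smooth.continuous.comp (continuous_const.prodMk continuous_snd)
    -- the sign of `κ`
    obtain ⟨ς, hς, hςκ⟩ : ∃ ς : ℝ, |ς| = 1 ∧ ∀ u s, m < ς * κ (θ x u, (Fl z s).2) := by
      have hc : Continuous fun q : ℝ × ℝ => κ (θ x q.1, (Fl z q.2).2) := hκc.comp hpc
      have hne : ∀ q : ℝ × ℝ, κ (θ x q.1, (Fl z q.2).2) ≠ 0 := fun q =>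
        hκ _ (hmem q.1 q.2)
      by_cases hpos : 0 < κ (θ x 0, (Fl z 0).2)
      · refine ⟨1, by simp, fun u s => ?_⟩
        have h1 : 0 < κ (θ x u, (Fl z s).2) := by
          by_contra hcon
          push Not at hcon
          obtain ⟨q, -, hq⟩ := isPreconnected_univ.intermediate_value (mem_univ ((u, s) : ℝ × ℝ))
            (mem_univ ((0, 0) : ℝ × ℝ)) hc.continuousOn
            (show (0:ℝ) ∈ Icc _ _ from ⟨hcon, hpos.le⟩)
          exact hne q hq
        have h2 := hmb _ (hmem u s)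
        rw [abs_of_pos h1] at h2
        linarith
      · push Not at hpos
        refine ⟨-1, by simp, fun u s => ?_⟩
        have h1 : κ (θ x u, (Fl z s).2) < 0 := by
          by_contra hcon
          push Not at hcon
          obtain ⟨q, -, hq⟩ := isPreconnected_univ.intermediate_value (mem_univ ((0, 0) : ℝ × ℝ))
            (mem_univ ((u, s) : ℝ × ℝ)) hc.continuousOn
            (show (0:ℝ) ∈ Icc _ _ from ⟨hpos, hcon⟩)
          exact hne q hq
        have h2 := hmb _ (hmem u s)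
        rw [abs_of_neg h1] at h2
        linarith
    have hest : ∀ u s, Fl z s ∉ Bad →
        m / 2 < ς * (dR Φ (Fl z s) * cA α V (θ x u, (Fl z s).2)) := by
      intro u s hs
      have h1 := hςκ u s
      have h2 := hgood _ hs _ (hmem u s) (hFz u s)
      have h3 : κ (θ x u, (Fl z s).2) = dR Φ (Fl z s) * cA α V (θ x u, (Fl z s).2) +
          cB α F X (θ x u, (Fl z s).2) := by
        show dR Φ (F (θ x u), (Fl z s).2) * _ + _ = _
        rw [hFz]
      rw [h3, mul_add] at h1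
      have h4 : ς * cB α F X (θ x u, (Fl z s).2) ≤ |cB α F X (θ x u, (Fl z s).2)| := by
        refine (le_abs_self _).trans ?_
        rw [abs_mul, hς, one_mul]
      linarith
    have hz0 : Fl z 0 = z := H.zero z
    have e0 : ∀ u, m / 2 < ς * (dR Φ z * cA α V (θ x u, (Fl z 0).2)) := by
      intro u
      have h1 := hest u 0 (by rw [hz0]; exact hz')
      rwa [show dR Φ (Fl z 0) = dR Φ z by rw [hz0]] at h1
    have et : ∀ u, m / 2 < ς * (dR Φ (Fl z t) * cA α V (θ x u, (Fl z t).2)) := fun u =>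
      hest u t hzt'
    by_contra hcon
    push Not at hcon
    have hne0 : dR Φ z ≠ 0 := by
      intro h0
      have h1 := e0 0
      rw [h0] at h1
      simp at h1
      linarith
    have hnet : dR Φ (Fl z t) ≠ 0 := by
      intro h0
      have h1 := et 0
      rw [h0] at h1
      simp at h1
      linarith
    have hneg : dR Φ z * dR Φ (Fl z t) < 0 := lt_of_le_of_ne hcon (mul_ne_zero hne0 hnet)
    have hder : ∀ u, HasDerivAt (fun u => ς * dR Φ z *
        ∫ s in (0:ℝ)..t, cB α F X (θ x u, (Fl z s).2))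
        (ς * dR Φ z * (cA α V (θ x u, (Fl z t).2) - cA α V (θ x u, (Fl z 0).2))) u := by
      intro u
      exact (hasDerivAt_segment hα hF H B hx hFx
        (fun u s => hext _ (hmem u s)) t u).const_mul _
    refine not_bounded_of_deriv hder (κ := m / 2) (B := |dR Φ z| * (Mb * |t|)) (half_pos hm) ?_ ?_
    · intro u
      have h1 := e0 u
      have h2 := et u
      -- the first term is negative
      have h3 : ς * dR Φ z * cA α V (θ x u, (Fl z t).2) < 0 := by
        have h4 : 0 < (ς * (dR Φ (Fl z t) * cA α V (θ x u, (Fl z t).2))) := by linarith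
        have h5 : (ς * dR Φ z * cA α V (θ x u, (Fl z t).2)) * (dR Φ (Fl z t)) ^ 2 =
          (dR Φ z * dR Φ (Fl z t)) * (ς * (dR Φ (Fl z t) * cA α V (θ x u, (Fl z t).2))) := by ring
        have h6 : (dR Φ z * dR Φ (Fl z t)) *
            (ς * (dR Φ (Fl z t) * cA α V (θ x u, (Fl z t).2))) < 0 :=
          mul_neg_of_neg_of_pos hneg h4
        rw [← h5] at h6
        by_contra hcon2
        push Not at hcon2
        have h7 := mul_nonneg hcon2 (sq_nonneg (dR Φ (Fl z t)))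
        linarith
      rw [mul_sub]
      have h8 : ς * dR Φ z * cA α V (θ x u, (Fl z 0).2) =
        ς * (dR Φ z * cA α V (θ x u, (Fl z 0).2)) := by ring
      rw [h8]
      linarith
    · intro u
      rw [abs_mul, abs_mul, hς, one_mul]
      refine mul_le_mul_of_nonneg_left ?_ (abs_nonneg _)
      have h1 := intervalIntegral.norm_integral_le_of_norm_le_const (a := (0:ℝ)) (b := t)
        (f := fun s => cB α F X (θ x u, (Fl z s).2)) (C := Mb)
        (fun s _ => by rw [Real.norm_eq_abs]; exact hMb _ (hmem u s))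
      rw [sub_zero] at h1
      exact h1

end Pool.Agent.J4.H62.We
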