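import Mathlib
import Pool.Agent.J4.H62.We.Contra
import Pool.Agent.J4.H62.We.Sign
import Pool.Agent.J4.H27.Wn.PartB

/-! The main theorem: Hamiltonians `Φ(F(x), y)` on `N × Y`, `Y` a surface. -/

open scoped Topology ContDiff Manifold
open Set Filter Pool.Agent.Helper186 Pool.Agent.J4.H27.Wn

noncomputable section

namespace Pool.Agent.J4.H62.We

set_option linter.unusedSectionVars false

universe u v

variable {E : Type u} [NormedAddCommGroup E] [NormedSpace ℝ E] [FiniteDimensional ℝ E]
  {K : Type*} [TopologicalSpace K] {I : ModelWithCorners ℝ E K} [I.Boundaryless]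
  {N : Type*} [TopologicalSpace N] [ChartedSpace K N] [IsManifold I ∞ N]
  {w : N → E →L[ℝ] E →L[ℝ] ℝ}
  {E' : Type v} [NormedAddCommGroup E'] [NormedSpace ℝ E'] [FiniteDimensional ℝ E']
  {K' : Type*} [TopologicalSpace K'] {J : ModelWithCorners ℝ E' K'} [J.Boundaryless]
  {Y : Type*} [TopologicalSpace Y] [ChartedSpace K' Y] [IsManifold J ∞ Y]
  {w' : Y → E' →L[ℝ] E' →L[ℝ] ℝ}

lemma dY_neg (Φ : ℝ × Y → ℝ) (p : ℝ × Y) : dY J (fun p => -Φ p) p = - dY J Φ p := by
  unfold dY dif
  have h1 : (fun y => -Φ (p.1, y)) = -(fun y => Φ (p.1, y)) := rfl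
  rw [h1]
  exact mfderiv_neg

lemma dR_neg (Φ : ℝ × Y → ℝ) (p : ℝ × Y) : dR (fun p => -Φ p) p = - dR Φ p := by
  unfold dR
  have h1 : (fun s => -Φ (s, p.2)) = -(fun s => Φ (s, p.2)) := rfl
  rw [h1]
  exact deriv.neg

/-- the dynamical core: without periodic orbits with vanishing elapsed time there is a
contradiction, provided the sign condition holds -/
theorem core [T2Space Y] [ConnectedSpace Y] (hnd : ∀ x v, (∀ u, w' x v u = 0) → v = 0)
    {Φ : ℝ × Y → ℝ} (hΦ : Sm (𝓘(ℝ, ℝ).prod J) Φ) {c : ℝ} {P O : Set (ℝ × Y)} (hP : IsCompact P)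
    (hPne : P.Nonempty) (hO : IsOpen O)
    (hPO : ∀ p, p ∈ P ↔ p ∈ O ∧ Φ p = c) {y₀ : Y} (hy₀ : ∀ s, (s, y₀) ∉ P)
    {X : ℝ × Y → E'} {Fl : ℝ × Y → ℝ → ℝ × Y} (H : PFlow J w' Φ P X Fl)
    (h1 : ∀ z ∈ P, ∀ T, 0 < T → Fl z T = z → tau Φ Fl z T ≠ 0)
    (h3 : ∀ a, SgnAt (S := P) (fun z t => ⟨Fl z.1 t, H.mem z.1 z.2 t⟩) (fun z => z.1.1)
      (fun z => dR Φ z.1) a) : False := by
  have : CompactSpace P := isCompact_iff_compactSpace.1 hP
  set φ : P → ℝ → P := fun z t => ⟨Fl z.1 t, H.mem z.1 z.2 t⟩ with hφ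
  set f : P → ℝ := fun z => z.1.1 with hf
  set h : P → ℝ := fun z => dR Φ z.1 with hh
  have HF : Flw φ f := H.flw
  have hhc : Continuous h := (sm_dR hΦ).continuous.comp continuous_subtype_val
  have h1' : ∀ z T, 0 < T → φ z T = z → (∃ t, φ z t ≠ z) → In φ h z T ≠ 0 := by
    intro z T hT hz _
    exact h1 z.1 z.2 T hT (congrArg Subtype.val hz)
  have h1n : ∀ z T, 0 < T → φ z T = z → (∃ t, φ z t ≠ z) → In φ (fun z => -h z) z T ≠ 0 := by
    intro z T hT hz hn
    rw [In_neg, neg_ne_zero]
    exact h1' z T hT hz hn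
  have hopen := open_plus HF hhc h1' h3
  have hopenn := open_plus (h := fun z => -h z) HF hhc.neg h1n (fun a => (h3 a).neg)
  set A : Set P := {z | Tendsto (In φ h z) atTop atTop} with hA
  set A' : Set P := {z | Tendsto (In φ (fun z => -h z) z) atTop atTop} with hA'
  have hcompl : Aᶜ = A' := by
    ext z
    constructor
    · intro hz
      rcases dichotomy HF hhc h1' h3 z with h4 | h4
      · exact absurd h4 hz
      · show Tendsto (In φ (fun z => -h z) z) atTop atTop
        have h5 : In φ (fun z => -h z) z = fun T => - In φ h z T := by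
          funext T; rw [In_neg]
        rw [h5]
        exact tendsto_neg_atBot_atTop.comp h4
    · intro hz hz2
      have hz' : Tendsto (In φ (fun z => -h z) z) atTop atTop := hz
      have hz2' : Tendsto (In φ h z) atTop atTop := hz2
      obtain ⟨T, hTa, hTb⟩ := ((hz'.eventually_gt_atTop 0).and (hz2'.eventually_gt_atTop 0)).exists
      rw [In_neg] at hTa
      linarith
  have hAclopen : IsClopen A := ⟨⟨by rw [hcompl]; exact hopenn⟩, hopen⟩
  have hA'clopen : IsClopen A' := by rw [← hcompl]; exact hAclopen.compl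
  -- critical points are fixed
  have hfix : ∀ z : P, dY J Φ z.1 = 0 → ∀ t, φ z t = z := by
    intro z hz t
    apply Subtype.ext
    apply H.fixed
    apply hnd z.1.2
    intro u
    rw [H.ham z.1 z.2, hz]
    simp
  rcases A.eq_empty_or_nonempty with he | hne
  · -- all signs negative
    have hA'ne : A'.Nonempty := by
      rw [← hcompl, he, compl_empty]
      obtain ⟨p, hp⟩ := hPne
      exact ⟨⟨p, hp⟩, trivial⟩
    have hΦn : Sm (𝓘(ℝ, ℝ).prod J) (fun p => -Φ p) := hΦ.neg
    refine clopen_contra (c := -c) hΦn hP hO (fun p => by rw [hPO p, neg_inj]) hy₀ hA'clopen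
      hA'ne ?_
    intro z hz hd
    rw [dY_neg, neg_eq_zero] at hd
    rw [dR_neg]
    have hz' : Tendsto (In φ (fun z => -h z) z) atTop atTop := hz
    obtain ⟨T, hTa, hTb⟩ := ((hz'.eventually_gt_atTop 0).and (eventually_gt_atTop 0)).exists
    rw [In_fixed (h := fun z => -h z) HF (hfix z hd)] at hTa
    exact (pos_iff_pos_of_mul_pos hTa).1 hTb
  · refine clopen_contra hΦ hP hO hPO hy₀ hAclopen hne ?_
    intro z hz hd
    have hz' : Tendsto (In φ h z) atTop atTop := hz
    obtain ⟨T, hTa, hTb⟩ := ((hz'.eventually_gt_atTop 0).and (eventually_gt_atTop 0)).exists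
    rw [In_fixed HF (hfix z hd)] at hTa
    exact (pos_iff_pos_of_mul_pos hTa).1 hTb

/-- **Main theorem.** -/
theorem main [T2Space N] [SigmaCompactSpace N] [T2Space Y] [SigmaCompactSpace Y]
    [ConnectedSpace Y]
    (hw : SmoothTwo I w) (halt : ∀ x v, w x v v = 0) (hnd : ∀ x v, (∀ u, w x v u = 0) → v = 0)
    (hdim : Module.finrank ℝ E' = 2)
    (hw' : SmoothTwo J w') (halt' : ∀ x v, w' x v v = 0)
    (hnd' : ∀ x v, (∀ u, w' x v u = 0) → v = 0)
    {F : N → ℝ} (hF : Sm I F) {Φ : ℝ × Y → ℝ} (hΦ : Sm (𝓘(ℝ, ℝ).prod J) Φ) {c : ℝ}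
    (hS : IsCompact {p : N × Y | Hm F Φ p = c}) (hSne : {p : N × Y | Hm F Φ p = c}.Nonempty)
    (hreg : ∀ p : N × Y, Hm F Φ p = c → dif (I.prod J) (Hm F Φ) p ≠ 0)
    {y₀ : Y} (hy₀ : ∀ x, Φ (F x, y₀) ≠ c)
    (hs : (∃ (U : Set (N × Y)) (Z : N × Y → E × E'), IsOpen U ∧ {p | Hm F Φ p = c} ⊆ U ∧
        IsLiouville (I.prod J) (prodForm w w') U Z ∧
        ∀ p, Hm F Φ p = c → dif (I.prod J) (Hm F Φ) p (Z p) ≠ 0) ∨
      ∀ x y y', Φ (F x, y) = c → Φ (F x, y') = c → dY J Φ (F x, y) = 0 → dY J Φ (F x, y') = 0 →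
        0 < dR Φ (F x, y) * dR Φ (F x, y')) :
    (∃ (x₀ : N) (γ : ℝ → N × Y), dif I F x₀ = 0 ∧ (∀ t, (γ t).1 = x₀) ∧
      IsPeriodicIn (I.prod J) (prodForm w w') (Hm F Φ) {p | Hm F Φ p = c} γ) ∨
    (∃ (x₀ : N) (y₁ : Y) (T : ℝ), 0 < T ∧ Φ (F x₀, y₁) = c ∧ ∀ x, F x = F x₀ →
      ∃ γ : ℝ → N × Y, γ 0 = (x, y₁) ∧ (∀ t, γ (t + T) = γ t) ∧
        IsPeriodicIn (I.prod J) (prodForm w w') (Hm F Φ) {p | Hm F Φ p = c} γ) := by
  have hHs : Sm (I.prod J) (Hm F Φ) := sm_Hm hF hΦ
  by_cases hcrit : ∃ x y, Φ (F x, y) = c ∧ dif I F x = 0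
  · -- a critical point of `F`
    left
    obtain ⟨x₀, y₁, hxy, hx₀⟩ := hcrit
    have hleft : ∀ y, dif I (fun x => Hm F Φ (x, y)) x₀ = 0 := by
      intro y
      ext u
      rw [dif_left hF hΦ, hx₀]
      simp
    set Q : Set Y := {y | Φ (F x₀, y) = c} with hQ
    have hQc : IsCompact Q := by
      have h1 : IsClosed Q :=
        isClosed_eq (hΦ.continuous.comp (by fun_prop)) continuous_const
      refine (hS.image continuous_snd).of_isClosed_subset h1 ?_
      intro y hy
      exact ⟨(x₀, y), hy, rfl⟩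
    have hpiece : IsPiece J False w' (fun y => Φ (F x₀, y)) Q := by
      refine ⟨hQc, ⟨y₁, hxy⟩, ⟨c, univ, isOpen_univ, by rw [inter_univ]⟩, ?_, fun h => h.elim⟩
      intro y hy h0
      apply hreg (x₀, y) hy
      ext u
      · rw [ContinuousLinearMap.comp_apply, dif_prod hHs, hleft y]
        simp
      · rw [ContinuousLinearMap.comp_apply, dif_prod hHs]
        have h2 : dif J (fun y => Hm F Φ (x₀, y)) y = 0 := h0
        rw [h2, hleft y]
        simp
    obtain ⟨η, hη1, ⟨T, hT, hTη⟩, hη3⟩ := wein_surface hdim hw' halt' hnd'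
      (sm_right hΦ (F x₀)) False Q hpiece
    refine ⟨x₀, fun t => (x₀, η t), hx₀, fun t => rfl, ?_, ⟨T, hT, fun t => ?_⟩, fun t => hη3 t⟩
    · have h1 := orbit_right (I := I) (w := w) (w' := w') (x := x₀) (μ := 1) hHs hη1
        (fun t => hleft (η t)) (fun t => by rw [one_smul]; rfl)
      simpa using h1
    · show (x₀, η (t + T)) = (x₀, η t)
      rw [hTη]
  · right
    push Not at hcrit
    by_contra hcon
    -- the projection to `ℝ × Y`
    have hpair : Continuous fun p : N × Y => ((F p.1, p.2) : ℝ × Y) :=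
      (hF.continuous.comp continuous_fst).prodMk continuous_snd
    set P : Set (ℝ × Y) := (fun p : N × Y => ((F p.1, p.2) : ℝ × Y)) '' {p | Hm F Φ p = c} with hPdef
    have hPcomp : IsCompact P := hS.image hpair
    have hPne : P.Nonempty := hSne.image _
    have hPmem : ∀ z, z ∈ P ↔ (∃ x, F x = z.1) ∧ Φ z = c := by
      intro z
      constructor
      · rintro ⟨p, hp, rfl⟩
        exact ⟨⟨p.1, rfl⟩, hp⟩
      · rintro ⟨⟨x, hx⟩, hz⟩
        have h1 : ((F x, z.2) : ℝ × Y) = z := Prod.ext hx rfl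
        refine ⟨(x, z.2), ?_, h1⟩
        show Φ (F x, z.2) = c
        rw [h1]; exact hz
    have hPc : ∀ z ∈ P, Φ z = c := fun z hz => ((hPmem z).1 hz).2
    -- the range of `F` is a neighbourhood of the heights
    have hrange : ∀ z ∈ P, z.1 ∈ interior (range F) := by
      intro z hz
      obtain ⟨⟨x, hx⟩, hzc⟩ := (hPmem z).1 hz
      have hd : dif I F x ≠ 0 := hcrit x z.2 (by
        have h1 : ((F x, z.2) : ℝ × Y) = z := Prod.ext hx rfl
        rw [h1]; exact hzc)
      have hG : Sm (I.prod 𝓘(ℝ, ℝ)) (fun p : N × ℝ => F p.1 - p.2) :=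
        (hF.comp contMDiff_fst).sub contMDiff_snd
      have hG' : dif I (fun x' => F x' - z.1) x ≠ 0 := by
        have h2 : HasMFDerivAt I 𝓘(ℝ, ℝ) F x (mfderiv I 𝓘(ℝ, ℝ) F x) :=
          (hF.mdifferentiableAt (by simp)).hasMFDerivAt
        have h3 := h2.sub (hasMFDerivAt_const (I := I) (I' := 𝓘(ℝ, ℝ)) z.1 x)
        have h4 : dif I (fun x' => F x' - z.1) x = dif I F x := by
          unfold dif
          refine Eq.trans h3.mfderiv ?_
          exact sub_zero _
        rw [h4]; exact hd
      have h3 := open_image (x₀ := x) (y₀ := z.1) hG isOpen_univ (mem_univ _) hG'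
      rw [mem_interior_iff_mem_nhds]
      filter_upwards [h3] with s hs
      obtain ⟨x', hx', -⟩ := hs
      refine ⟨x', ?_⟩
      have h5 : F x' - s = F x - z.1 := hx'
      rw [hx, sub_self] at h5
      linarith
    set O : Set (ℝ × Y) := Prod.fst ⁻¹' interior (range F) with hOdef
    have hO : IsOpen O := isOpen_interior.preimage continuous_fst
    have hPO : ∀ p, p ∈ P ↔ p ∈ O ∧ Φ p = c := by
      intro p
      constructor
      · intro hp
        exact ⟨hrange p hp, hPc p hp⟩
      · rintro ⟨hp1, hp2⟩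
        refine (hPmem p).2 ⟨?_, hp2⟩
        have h1 : p.1 ∈ range F := interior_subset hp1
        exact h1
    obtain ⟨X, Fl, H⟩ := exists_piece_flow hdim hw' halt' hnd' hΦ hPcomp hO hPO
    -- the base flow
    set PN : Set N := Prod.fst '' {p : N × Y | Hm F Φ p = c} with hPN
    have hPNc : IsCompact PN := hS.image continuous_fst
    have hPNA : ∀ x, x ∈ PN ↔ F x ∈ {s | ∃ y, Φ (s, y) = c} := by
      intro x
      constructor
      · rintro ⟨p, hp, rfl⟩
        exact ⟨p.2, hp⟩
      · rintro ⟨y, hy⟩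
        exact ⟨(x, y), hy, rfl⟩
    obtain ⟨V, θ, B⟩ := exists_base_flow hw halt hnd hF hPNc hPNA
    have hPx : ∀ z ∈ P, ∃ x ∈ PN, F x = z.1 := by
      intro z hz
      obtain ⟨⟨x, hx⟩, hzc⟩ := (hPmem z).1 hz
      refine ⟨x, (hPNA x).2 ⟨z.2, ?_⟩, hx⟩
      have h1 : ((F x, z.2) : ℝ × Y) = z := Prod.ext hx rfl
      rw [h1]; exact hzc
    have hy₀' : ∀ s, (s, y₀) ∉ P := by
      intro s hs0
      obtain ⟨⟨x, hx⟩, hzc⟩ := (hPmem _).1 hs0
      have hx' : F x = s := hx
      apply hy₀ x
      rw [hx']; exact hzc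
    refine core hnd' hΦ hPcomp hPne hO hPO hy₀' H ?_ ?_
    · intro z hz T hT hper h0
      apply hcon
      obtain ⟨x, hx, hxz⟩ := hPx z hz
      have hzeq : ((F x, z.2) : ℝ × Y) = z := Prod.ext hxz rfl
      refine ⟨x, z.2, T, hT, by rw [hzeq]; exact hPc z hz, fun x' hx' => ?_⟩
      have hzeq' : ((F x', z.2) : ℝ × Y) = z := by rw [hx']; exact hzeq
      refine periodic_drive hF hΦ H hPc B ?_ (by rw [hzeq']; exact hz) hT
        (by rw [hzeq']; exact hper) (by rw [hzeq']; exact h0)
      rw [hPNA]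
      exact ⟨z.2, by rw [hzeq']; exact hPc z hz⟩
    · -- the sign condition
      intro a
      have hfixX : ∀ z : P, (∀ t, (⟨Fl z.1 t, H.mem z.1 z.2 t⟩ : P) = z) → X z.1 = 0 := by
        intro z hz
        by_contra hX
        obtain ⟨t₀, ht₀, hsh⟩ := H.short z.1 z.2 hX
        exact hsh.self_of_nhds t₀ ht₀ le_rfl (congrArg Subtype.val (hz t₀))
      have hXd : ∀ z : P, X z.1 = 0 → dY J Φ z.1 = 0 := by
        intro z hz
        ext u
        have h1 := H.ham z.1 z.2 u
        rw [hz, map_zero] at h1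
        have h2 : dY J Φ z.1 u = 0 := by
          have h3 : (0 : E' →L[ℝ] ℝ) u = - dY J Φ z.1 u := h1
          simp at h3
          linarith
        rw [h2]; rfl
      rcases hs with ⟨U, Z, hU, hSU, hZ, hZt⟩ | hs
      · -- contact type
        obtain ⟨χ, C, hχ, hC, hCU, hχ1, hχ0⟩ := exists_cutoff (I.prod J) hS hU hSU
        let α : (z : N × Y) → TangentSpace (I.prod J) z →L[ℝ] ℝ := fun z =>
          χ z • (prodForm w w' z (Z z))
        let α₀ : N × Y → (E × E') →L[ℝ] ℝ := fun z => prodForm w w' z (Z z)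
        have hformC : ∀ (z : N × Y) (y : E × E'),
            formC (I.prod J) (fun z => (show (E × E') →L[ℝ] ℝ from α z)) z y =
            χ ((extChartAt (I.prod J) z).symm y) • formC (I.prod J) α₀ z y := by
          intro z y
          ext u <;> rfl
        have hα : SmoothForm α := by
          apply smoothForm_of_chart
          intro z
          have h1 : ContDiffAt ℝ ∞ (fun y => χ ((extChartAt (I.prod J) z).symm y))
              (extChartAt (I.prod J) z z) :=
            (contDiffOn_chart hχ z).contDiffAt ((isOpen_extChartAt_target z).mem_nhds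
              (mem_extChartAt_target z))
          by_cases hz : z ∈ U
          · have h2 := h1.smul (hZ z hz).1
            refine h2.congr_of_eventuallyEq (Filter.Eventually.of_forall fun y => ?_)
            exact hformC z y
          · have hz' : z ∈ Cᶜ := fun h => hz (hCU h)
            refine (contDiffAt_const (c := (0 : (E × E') →L[ℝ] ℝ))).congr_of_eventuallyEq ?_
            have h3 : ContinuousAt (extChartAt (I.prod J) z).symm (extChartAt (I.prod J) z z) :=
              continuousAt_extChartAt_symm z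
            have h4 : Cᶜ ∈ 𝓝 ((extChartAt (I.prod J) z).symm (extChartAt (I.prod J) z z)) := by
              rw [(extChartAt (I.prod J) z).left_inv (mem_extChartAt_source z)]
              exact hC.isClosed.isOpen_compl.mem_nhds hz'
            filter_upwards [h3.preimage_mem_nhds h4] with y hy
            rw [hformC, hχ0 _ hy, zero_smul]
        have hχone : ∀ p : N × Y, Hm F Φ p = c → χ p = 1 := by
          intro p hp
          exact (hχ1.filter_mono (nhds_le_nhdsSet
            (show p ∈ {p : N × Y | Hm F Φ p = c} from hp))).self_of_nhds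
        have hext : ∀ p : N × Y, Hm F Φ p = c → ∀ a b, extDer (I.prod J) α p a b =
            prodForm w w' p a b := by
          intro p hp a b
          have h1 : formC (I.prod J) (fun z => (show (E × E') →L[ℝ] ℝ from α z)) p =ᶠ[
              𝓝 (extChartAt (I.prod J) p p)] formC (I.prod J) α₀ p := by
            have h3 : ContinuousAt (extChartAt (I.prod J) p).symm
                (extChartAt (I.prod J) p p) := continuousAt_extChartAt_symm p
            have h4 : ∀ᶠ z in 𝓝 ((extChartAt (I.prod J) p).symm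
                (extChartAt (I.prod J) p p)), χ z = 1 := by
              rw [(extChartAt (I.prod J) p).left_inv (mem_extChartAt_source p)]
              exact hχ1.filter_mono (nhds_le_nhdsSet
                (show p ∈ {p : N × Y | Hm F Φ p = c} from hp))
            filter_upwards [h3.eventually h4] with z hz
            rw [hformC, hz, one_smul]
          have h2 := (hZ p (hSU hp)).2 a b
          rw [← h2]
          unfold extD
          have h5 : formC (I.prod J) (fun z => prodForm w w' z (Z z)) p =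
            formC (I.prod J) α₀ p := rfl
          rw [h5, ← h1.fderiv_eq]
          rfl
        -- antisymmetry
        have hanti : ∀ (x : N) (a b : E), w x a b = - w x b a := by
          intro x a b
          have h1 := halt x (a + b)
          simp only [map_add, add_apply, halt] at h1
          linarith
        have hanti' : ∀ (x : Y) (a b : E'), w' x a b = - w' x b a := by
          intro x a b
          have h1 := halt' x (a + b)
          simp only [map_add, add_apply, halt'] at h1
          linarith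
        have hκ : ∀ p : N × Y, Hm F Φ p = c →
            dR Φ (F p.1, p.2) * cA α V p + cB α F X p ≠ 0 := by
          intro p hp
          have hpN : p.1 ∈ PN := ⟨p, hp, rfl⟩
          have hpP : ((F p.1, p.2) : ℝ × Y) ∈ P := ⟨p, hp, rfl⟩
          have e1 : cA α V p = dif I F p.1 (Z p).1 := by
            have gen : ∀ v₁ : E, (∀ u, w p.1 v₁ u = - dif I F p.1 u) →
                χ p • (prodForm w w' p (Z p)) (v₁, (0 : E')) = dif I F p.1 (Z p).1 := by
              intro v₁ hv₁
              rw [hχone p hp, one_smul, prodForm_apply, map_zero, add_zero, hanti, hv₁, neg_neg]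
            exact gen _ (B.ham p.1 hpN)
          have e2 : cB α F X p = dY J Φ (F p.1, p.2) (Z p).2 := by
            have gen : ∀ v₂ : E', (∀ u, w' p.2 v₂ u = - dY J Φ (F p.1, p.2) u) →
                χ p • (prodForm w w' p (Z p)) ((0 : E), v₂) = dY J Φ (F p.1, p.2) (Z p).2 := by
              intro v₂ hv₂
              rw [hχone p hp, one_smul, prodForm_apply, map_zero, zero_add, hanti', hv₂, neg_neg]
            exact gen _ (H.ham _ hpP)
          rw [e1, e2]
          have h1 := dif_Hm hF hΦ p.1 p.2 (Z p)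
          rw [← h1]
          exact hZt p hp
        obtain ⟨V₀, hV₀, hV₀X, hV₀s⟩ := exists_sign_nbhd hα hF hΦ H B hS hPc hPx hext hκ
        refine ⟨V₀, hV₀, fun z _ hz => hV₀X z (hfixX z hz), 1, one_pos, ?_⟩
        intro z hz _ t ht
        exact hV₀s z hz t ht
      · -- all critical points of the same level have the same sign
        by_cases hex : ∃ z₀ : P, z₀.1.1 = a ∧ dY J Φ z₀.1 = 0
        · obtain ⟨z₀, hz₀a, hz₀d⟩ := hex
          have hc1 : Continuous fun z : P => dR Φ z.1 :=
            (sm_dR hΦ).continuous.comp continuous_subtype_val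
          refine ⟨{z | 0 < dR Φ z₀.1 * dR Φ z.1}, isOpen_lt continuous_const
            (continuous_const.mul hc1), ?_, 1, one_pos, ?_⟩
          · intro z hza hz
            have hzd := hXd z (hfixX z hz)
            obtain ⟨⟨x, hx⟩, hzc⟩ := (hPmem _).1 z₀.2
            have hz1 : z.1.1 = a := hza
            have k1 : ((F x, z₀.1.2) : ℝ × Y) = z₀.1 := Prod.ext hx rfl
            have k2 : ((F x, z.1.2) : ℝ × Y) = z.1 :=
              Prod.ext (by show F x = z.1.1; rw [hx, hz₀a, hz1]) rfl
            have h5 := hs x z₀.1.2 z.1.2 (by rw [k1]; exact hzc)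
              (by rw [k2]; exact hPc _ z.2) (by rw [k1]; exact hz₀d) (by rw [k2]; exact hzd)
            rw [k1, k2] at h5
            exact h5
          · intro z hz _ t ht
            have hz' : 0 < dR Φ z₀.1 * dR Φ z.1 := hz
            have ht' : 0 < dR Φ z₀.1 * dR Φ (Fl z.1 t) := ht
            show 0 < dR Φ z.1 * dR Φ (Fl z.1 t)
            have h5 := mul_pos hz' ht'
            have h6 : dR Φ z₀.1 * dR Φ z.1 * (dR Φ z₀.1 * dR Φ (Fl z.1 t)) =
              (dR Φ z₀.1) ^ 2 * (dR Φ z.1 * dR Φ (Fl z.1 t)) := by ring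
            rw [h6] at h5
            have h7 : 0 < (dR Φ z₀.1) ^ 2 := by
              have h8 : dR Φ z₀.1 ≠ 0 := by
                intro h0
                rw [h0] at hz'
                simp at hz'
              positivity
            exact (pos_iff_pos_of_mul_pos h5).1 h7
        · refine ⟨∅, isOpen_empty, ?_, 1, one_pos, by simp⟩
          intro z hza hz
          exact absurd ⟨z, hza, hXd z (hfixX z hz)⟩ hex

end Pool.Agent.J4.H62.We
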